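import Pool.Agent.TH107.AT.Tower
import Pool.Agent.Y194.TS.VnF

/-!
# Von Neumann dimensions of kernels and finite `p`-groups
-/

set_option autoImplicit false

open scoped InnerProductSpace ENNReal ComplexOrder
open Filter Topology

namespace Pool.Agent.Y194.VN

open Pool.Agent.H80R2
open Pool.Agent.H80R2.BC (L2 GMat vdim IsTr LInv Equi act kerA)
open Pool.Agent.H812R3
open Pool.Agent.W656.VA
open Pool.Agent.TH107.AT
open Pool.Agent.Y194.TS (typ wt aug ZM fin_p)

section fin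

variable {ι κ Q : Type} [Group Q] [Fintype Q] [Fintype ι] [Fintype κ]

/-- the matrix of the action -/
def MM (A : GMat κ ι Q) : Matrix (κ × Q) (ι × Q) ℂ :=
  Matrix.of fun p q => A p.1 q.1 (p.2⁻¹ * q.2)

omit [Fintype κ] in
lemma mm_act (A : GMat κ ι Q) (x : ι × Q → ℂ) (k : κ) (g : Q) :
    (MM A).mulVecLin x (k, g) = act A x k g := by
  classical
  rw [Matrix.mulVecLin_apply]
  unfold Matrix.mulVec dotProduct MM act
  rw [Fintype.sum_prod_type]
  refine Finset.sum_congr rfl fun i _ => ?_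
  have h1 : ((A k i).sum fun u z => z * x (i, g * u)) = ∑ u, A k i u * x (i, g * u) :=
    Finsupp.sum_fintype _ _ (fun _ => zero_mul _)
  refine Eq.trans ?_ h1.symm
  rw [← Equiv.sum_comp (Equiv.mulLeft g)]
  refine Finset.sum_congr rfl fun u _ => ?_
  show A k i (g⁻¹ * (g * u)) * x (i, g * u) = A k i u * x (i, g * u)
  rw [inv_mul_cancel_left]

omit [Fintype κ] in
lemma mem_kerA_iff (A : GMat κ ι Q) (x : L2 (ι × Q)) :
    x ∈ kerA A ↔ (x : ι × Q → ℂ) ∈ LinearMap.ker (MM A).mulVecLin := by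
  rw [LinearMap.mem_ker]
  constructor
  · intro h
    funext ⟨k, g⟩
    rw [mm_act]
    exact h k g
  · intro h k g
    rw [← mm_act, h]
    rfl

/-- the dimension over a finite group -/
theorem vdim_fin (A : GMat κ ι Q) :
    (Nat.card Q : ℝ) * vdim (kerA A) =
      Module.finrank ℂ (LinearMap.ker (MM A).mulVecLin) := by
  classical
  obtain ⟨u, hu, hu2, hu3⟩ := exists_vec (isClosed_kerA A)
  let w : ι × Q → L2 (ι × Q) := fun j => lt ι j.2⁻¹ (u j.1)
  have hw : ∀ j, w j ∈ kerA A := fun j => linv_lt (linv_kerA A) _ (hu j.1)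
  have hw2 : ∀ j, ∀ x ∈ kerA A, ⟪w j, x⟫_ℂ = x j := by
    rintro ⟨i, g⟩ x hx
    change ⟪lt ι g⁻¹ (u i), x⟫_ℂ = _
    rw [inner_lt_left, inv_inv, hu2 i _ (linv_lt (linv_kerA A) _ hx), lt_apply, mul_one]
  let K' := LinearMap.ker (MM A).mulVecLin
  let Pm : Matrix (ι × Q) (ι × Q) ℂ := Matrix.of fun a b => w b a
  have hP1 : ∀ x : ι × Q → ℂ, Matrix.toLin' Pm x = ∑ b, x b • (w b : ι × Q → ℂ) := by
    intro x
    funext a
    rw [Matrix.toLin'_apply, Finset.sum_apply]
    unfold Matrix.mulVec dotProduct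
    refine Finset.sum_congr rfl fun b _ => ?_
    show w b a * x b = x b * w b a
    rw [mul_comm]
  have hproj : LinearMap.IsProj K' (Matrix.toLin' Pm) := by
    refine ⟨fun x => ?_, fun x hx => ?_⟩
    · rw [hP1]
      exact Submodule.sum_mem _ fun b _ => Submodule.smul_mem _ _ ((mem_kerA_iff A _).1 (hw b))
    · have hmem : Memℓp x 2 := memℓp_gen (hasSum_fintype _).summable
      let X : L2 (ι × Q) := ⟨x, hmem⟩
      have hX : X ∈ kerA A := (mem_kerA_iff A X).2 hx
      rw [hP1]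
      funext a
      have h1 := hw2 a X hX
      rw [lp.inner_eq_tsum, tsum_fintype] at h1
      rw [Finset.sum_apply]
      refine Eq.trans ?_ h1
      refine Finset.sum_congr rfl fun b _ => ?_
      have h2 : w b a = (starRingEnd ℂ) (w a b) := by
        rw [← hw2 a (w b) (hw b), ← hw2 b (w a) (hw a), inner_conj_symm]
      show x b * w b a = ⟪w a b, x b⟫_ℂ
      rw [h2]
      simp
  have htr := hproj.trace
  rw [Matrix.trace_toLin'_eq, Matrix.trace, Fintype.sum_prod_type] at htr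
  have h3 : ∀ i : ι, ∑ g : Q, Pm.diag (i, g) = Fintype.card Q * u i (i, 1) := by
    intro i
    have h4 : ∀ g : Q, Pm.diag (i, g) = u i (i, 1) := by
      intro g
      show lt ι g⁻¹ (u i) (i, g) = _
      rw [lt_apply, inv_mul_cancel]
    rw [Finset.sum_congr rfl fun g _ => h4 g, Finset.sum_const, Finset.card_univ, nsmul_eq_mul]
  rw [Finset.sum_congr rfl fun i _ => h3 i, ← Finset.mul_sum] at htr
  have h5 := congrArg Complex.re htr
  rw [Complex.natCast_re] at h5
  rw [← h5, hu3, Nat.card_eq_fintype_card]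
  rw [Complex.mul_re, Complex.natCast_re, Complex.natCast_im, zero_mul, sub_zero, Complex.re_sum]

end fin

section main

variable {G : Type} [Group G] {s t : ℕ}

/-- the coefficients of an integral matrix as complex numbers -/
noncomputable def cf (Y : Matrix (Fin t) (Fin s) (MonoidAlgebra ℤ G)) : GMat (Fin t) (Fin s) G :=
  fun k i => (Y k i).coeff.mapRange (fun z : ℤ => (z : ℂ)) Int.cast_zero

/-- the complex matrix -/
noncomputable def cX (Y : Matrix (Fin t) (Fin s) (MonoidAlgebra ℤ G)) :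
    Matrix (Fin t) (Fin s) (MonoidAlgebra ℂ G) :=
  Matrix.of fun k i => MonoidAlgebra.ofCoeff (cf Y k i)

lemma kr_cX (Y : Matrix (Fin t) (Fin s) (MonoidAlgebra ℤ G)) :
    kr (mop (cX Y)) = kerA (cf Y) := by
  rw [kr_mop]
  rfl

lemma itg_cX (Y : Matrix (Fin t) (Fin s) (MonoidAlgebra ℤ G)) : Itg (cX Y) := fun k i g =>
  ⟨(Y k i).coeff g, rfl⟩

/-- the image of an integral matrix -/
noncomputable def imZ {Q : Type} [Group Q] (f : G →* Q)
    (Y : Matrix (Fin t) (Fin s) (MonoidAlgebra ℤ G)) :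
    Matrix (Fin t) (Fin s) (MonoidAlgebra ℤ Q) :=
  Matrix.of fun k i => MonoidAlgebra.ofCoeff ((Y k i).coeff.mapDomain f)

lemma im_cX {Q : Type} [Group Q] (f : G →* Q)
    (Y : Matrix (Fin t) (Fin s) (MonoidAlgebra ℤ G)) : im f (cX Y) = cX (imZ f Y) := by
  ext1 k i
  apply MonoidAlgebra.ext
  show (hm f (cX Y k i)).coeff = _
  rw [hm_coeff]
  show Finsupp.mapDomain f ((Y k i).coeff.mapRange (fun z : ℤ => (z : ℂ)) Int.cast_zero) =
    Finsupp.mapRange (fun z : ℤ => (z : ℂ)) Int.cast_zero (Finsupp.mapDomain f (Y k i).coeff)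
  exact Finsupp.mapDomain_mapRange f (Y k i).coeff (fun z : ℤ => (z : ℂ)) Int.cast_zero
    Int.cast_add

lemma aug_imZ {Q : Type} [Group Q] (f : G →* Q)
    (Y : Matrix (Fin t) (Fin s) (MonoidAlgebra ℤ G)) (k : Fin t) (i : Fin s) :
    aug (imZ f Y k i) = aug (Y k i) := by
  unfold aug
  show (Finsupp.mapDomain f (Y k i).coeff).sum (fun _ z => z) = _
  exact Finsupp.sum_mapDomain_index (fun _ => rfl) (fun _ _ _ => rfl)

/-- the bound for finite quotients of `p`-power order -/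
lemma vdim_fin_p {p : ℕ} [hp : Fact p.Prime] {Q : Type} [Group Q] [Finite Q] (hQ : IsPGroup p Q)
    (Y : Matrix (Fin t) (Fin s) (MonoidAlgebra ℤ Q)) {a : ℕ} {v : Multiset ℕ}
    (hY : ∀ k, Nat.card {x : Fin s → ZMod (p ^ k) // ∀ b, ∑ i, aug (Y b i) • x i = 0} =
      typ p a v k) : vdim (kerA (cf Y)) ≤ a + wt p v := by
  classical
  have : Fintype Q := Fintype.ofFinite Q
  have h1 := fin_p hQ Y hY
  have h2 := vdim_fin (cf Y)
  have h3 : MM (cf Y) = (ZM Y).map (Int.castRingHom ℂ) := by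
    ext ⟨k, g⟩ ⟨i, h⟩
    rfl
  rw [h3] at h2
  rw [← h2] at h1
  exact le_of_mul_le_mul_left h1 (by exact_mod_cast Nat.card_pos)

/-- residually a finite `p`-group -/
def ResP (p : ℕ) (G : Type) [Group G] : Prop := ResBy (fun Q _ => Finite Q ∧ IsPGroup p Q) G

/-- **the bound** -/
theorem vn_main {p : ℕ} [hp : Fact p.Prime] (hG : ResP p G)
    (Y : Matrix (Fin t) (Fin s) (MonoidAlgebra ℤ G)) {a : ℕ} {v : Multiset ℕ}
    (hY : ∀ k, Nat.card {x : Fin s → ZMod (p ^ k) // ∀ b, ∑ i, aug (Y b i) • x i = 0} =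
      typ p a v k) : vdim (kerA (cf Y)) ≤ a + wt p v := by
  classical
  refine le_of_forall_pos_le_add fun ε hε => ?_
  set X := cX Y with hXdef
  have hX : Itg X := itg_cX Y
  set c : ℝ := 1 / (n1 X ^ 2 + 1) with hcdef
  have hpos : 0 < n1 X ^ 2 + 1 := by positivity
  have hc : 0 < c := by positivity
  have hc1 : c ≤ 1 := by
    rw [hcdef, div_le_one hpos]
    have := sq_nonneg (n1 X)
    linarith
  have hc2 : c * n1 X ^ 2 ≤ 1 := by
    rw [hcdef, one_div, inv_mul_le_iff₀ hpos]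
    linarith
  obtain ⟨L, hL0, hL⟩ : ∃ L : ℕ, 0 < L ∧ (Fintype.card (Fin s) : ℝ) * (1 / L) < ε / 4 := by
    obtain ⟨L, hL⟩ := exists_nat_gt ((Fintype.card (Fin s) : ℝ) / (ε / 4))
    have hL' : (0 : ℝ) < L := lt_of_le_of_lt (by positivity) hL
    refine ⟨L, by exact_mod_cast hL', ?_⟩
    rw [mul_one_div, div_lt_iff₀ hL']
    rw [div_lt_iff₀ (by positivity)] at hL
    linarith
  have h1 := (tendsto_err c hc L (Fintype.card (Fin s))).eventually (gt_mem_nhds hL)
  have h2 := (mN_tendsto X c hc hc2).eventually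
    (Metric.ball_mem_nhds _ (show 0 < ε / 4 by positivity))
  obtain ⟨N, hN1, hN2, hN0⟩ := (h1.and (h2.and (eventually_gt_atTop 0))).exists
  obtain ⟨Q, _, f, ⟨hQ, hQp⟩, hf⟩ := hG (Ex X c N) (fun s hs => (Finset.mem_filter.1 hs).2)
  have h3 := mN_im f X c N hf
  have h4 : c * n1 (im f X) ^ 2 ≤ 1 := by
    refine le_trans ?_ hc2
    apply mul_le_mul_of_nonneg_left _ hc.le
    exact pow_le_pow_left₀ (n1_nonneg _) (n1_im_le f X) 2
  have hRF : RF Q := fun S hS => ⟨Q, inferInstance, MonoidHom.id Q, hQ, fun s hs => hS s hs⟩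
  have h5 := vdim_rf hRF (im f X) (itg_im f X hX) c hc hc1 h4 N L hN0 hL0
  rw [h3] at h5
  rw [dist_eq_norm] at hN2
  have h6 : ‖((vdim (kr (mop X)) - vdim (kr (mop (im f X))) : ℝ) : ℂ)‖ < ε := by
    have e : ((vdim (kr (mop X)) - vdim (kr (mop (im f X))) : ℝ) : ℂ) =
        (mN X c N - (vdim (kr (mop (im f X))) : ℂ)) - (mN X c N - (vdim (kr (mop X)) : ℂ)) := by
      push_cast; ring
    rw [e]
    refine lt_of_le_of_lt (norm_sub_le _ _) ?_
    linarith
  rw [Complex.norm_real, Real.norm_eq_abs] at h6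
  have h7 := (abs_lt.1 h6).2
  rw [hXdef, im_cX, kr_cX, kr_cX] at h7
  have h8 := vdim_fin_p hQp (imZ f Y) (a := a) (v := v) (fun k => by
    simp only [aug_imZ]
    exact hY k)
  linarith

end main

end Pool.Agent.Y194.VN
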