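import Pool.Agent.TH107.AT.Fi
import Pool.Agent.Y194.VN.Main

/-!
# Subgroups of finite index
-/

set_option autoImplicit false

open scoped InnerProductSpace ENNReal ComplexOrder
open Filter Topology

namespace Pool.Agent.Y194.VN

open Pool.Agent.H80R2
open Pool.Agent.H80R2.BC (L2 GMat vdim IsTr LInv Equi act kerA)
open Pool.Agent.H812R3
open Pool.Agent.W656.VA
open Pool.Agent.TH107.AT
open Pool.Agent.Y194.TS (typ wt aug Inv mem_Inv KK mem_KK dl dl_apply dl_mem)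

section fi

variable {G : Type} [Group G] (H : Subgroup G) {s t : ℕ}

/-- the entries of the restriction of an integral matrix -/
noncomputable def resZ (Y : Matrix (Fin t) (Fin s) (MonoidAlgebra ℤ G)) (p : Fin t × (G ⧸ H))
    (q : Fin s × (G ⧸ H)) : MonoidAlgebra ℤ H :=
  MonoidAlgebra.ofCoeff ((Y p.1 q.1).coeff.comapDomain
    (fun a : H => (rp H p.2)⁻¹ * (a : G) * rp H q.2) (inj_res H p.2 q.2).injOn)

lemma dl_res [Fintype (G ⧸ H)] {M : Type} [AddCommGroup M]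
    (Y : Matrix (Fin t) (Fin s) (MonoidAlgebra ℤ G)) {f : G → Fin s → M} (hf : f ∈ Inv H s M)
    (k : Fin t) (q : G ⧸ H) :
    ∑ p : Fin s × (G ⧸ H), aug (resZ H Y (k, q) p) • f (rp H p.2) p.1 = dl M Y f (rp H q) k := by
  classical
  rw [dl_apply, Fintype.sum_prod_type]
  refine Finset.sum_congr rfl fun i _ => ?_
  have h1 : ∀ t : G ⧸ H, aug (resZ H Y (k, q) (i, t)) • f (rp H t) i =
      ∑ a ∈ (resZ H Y (k, q) (i, t)).coeff.support,
        (fun u => (Y k i).coeff u • f (rp H q * u) i) ((rp H q)⁻¹ * (a : G) * rp H t) := by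
    intro t
    unfold aug
    rw [Finsupp.sum, Finset.sum_smul]
    refine Finset.sum_congr rfl fun a _ => ?_
    have e1 : (resZ H Y (k, q) (i, t)).coeff a =
      (Y k i).coeff ((rp H q)⁻¹ * (a : G) * rp H t) := rfl
    have e2 : rp H q * ((rp H q)⁻¹ * (a : G) * rp H t) = a * rp H t := by group
    simp only [e1, e2]
    rw [mem_Inv.1 hf a a.2]
  rw [Finset.sum_congr rfl fun t _ => h1 t, Finset.sum_sigma', Finsupp.sum]
  refine Finset.sum_bij (fun p _ => (rp H q)⁻¹ * ((p.2 : H) : G) * rp H p.1) ?_ ?_ ?_ ?_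
  · rintro ⟨t, a⟩ hp
    have hp' := (Finset.mem_sigma.1 hp).2
    rw [Finsupp.mem_support_iff] at hp' ⊢
    exact hp'
  · rintro ⟨t, a⟩ _ ⟨t', a'⟩ _ e
    have e2 : (a : G) * rp H t = (a' : G) * rp H t' := by
      have := congrArg (fun z => rp H q * z) e
      simpa [mul_assoc] using this
    have e3 := (rp_bij H).1 (a₁ := (t, a)) (a₂ := (t', a')) e2
    simp only [Prod.mk.injEq] at e3
    obtain ⟨rfl, rfl⟩ := e3
    rfl
  · intro u hu
    obtain ⟨⟨t, a⟩, hta⟩ := (rp_bij H).2 (rp H q * u)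
    have e : (rp H q)⁻¹ * (a : G) * rp H t = u := by
      rw [mul_assoc]
      change (rp H q)⁻¹ * ((fun p : (G ⧸ H) × H => (p.2 : G) * rp H p.1) (t, a)) = u
      rw [hta]
      group
    refine ⟨⟨t, a⟩, ?_, e⟩
    rw [Finset.mem_sigma]
    refine ⟨Finset.mem_univ _, ?_⟩
    rw [Finsupp.mem_support_iff] at hu ⊢
    change (Y k i).coeff ((rp H q)⁻¹ * (a : G) * rp H t) ≠ 0
    rw [e]
    exact hu
  · rintro ⟨t, a⟩ _
    rfl

lemma mk_rp (q : G ⧸ H) : (((rp H q)⁻¹ : G) : G ⧸ H) = q := by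
  unfold rp
  rw [inv_inv]
  exact Quotient.out_eq' q

lemma exists_rp (γ : G) : ∃ n : H, γ = n * rp H ((γ⁻¹ : G) : G ⧸ H) := by
  obtain ⟨⟨q, n⟩, h⟩ := (rp_bij H).2 γ
  have h' : (n : G) * rp H q = γ := h
  refine ⟨n, ?_⟩
  have h2 : ((γ⁻¹ : G) : G ⧸ H) = q := by
    rw [← h', mul_inv_rev, QuotientGroup.mk_mul_of_mem _ (H.inv_mem n.2), mk_rp]
  rw [h2, h']

lemma inv_eq {M : Type} [AddCommGroup M] {f : G → Fin s → M} (hf : f ∈ Inv H s M) (γ : G) :
    f (rp H ((γ⁻¹ : G) : G ⧸ H)) = f γ := by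
  obtain ⟨n, hn⟩ := exists_rp H γ
  conv_rhs => rw [hn]
  exact (mem_Inv.1 hf n n.2 _).symm

lemma card_KK_res [Fintype (G ⧸ H)] (Y : Matrix (Fin t) (Fin s) (MonoidAlgebra ℤ G)) (q : ℕ)
    {s' t' : ℕ} (e : Fin t' ≃ Fin t × (G ⧸ H)) (f : Fin s' ≃ Fin s × (G ⧸ H)) :
    Nat.card {x : Fin s' → ZMod q // ∀ b, ∑ i, aug (resZ H Y (e b) (f i)) • x i = 0} =
      Nat.card (KK H Y (ZMod q)) := by
  classical
  let F : (Fin s' → ZMod q) → (G → Fin s → ZMod q) := fun x γ i => x (f.symm (i, ((γ⁻¹ : G) :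
    G ⧸ H)))
  have hF : ∀ x, F x ∈ Inv H s (ZMod q) := by
    intro x
    rw [mem_Inv]
    intro n hn γ
    funext i
    show x (f.symm (i, (((n * γ)⁻¹ : G) : G ⧸ H))) = x (f.symm (i, ((γ⁻¹ : G) : G ⧸ H)))
    rw [mul_inv_rev, QuotientGroup.mk_mul_of_mem _ (H.inv_mem hn)]
  have hF2 : ∀ x j, F x (rp H (f j).2) (f j).1 = x j := by
    intro x j
    show x (f.symm ((f j).1, (((rp H (f j).2)⁻¹ : G) : G ⧸ H))) = x j
    rw [mk_rp, Prod.mk.eta, Equiv.symm_apply_apply]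
  have hsum : ∀ (g : G → Fin s → ZMod q), g ∈ Inv H s (ZMod q) → ∀ (k : Fin t) (c : G ⧸ H),
      ∑ i, aug (resZ H Y (k, c) (f i)) • g (rp H (f i).2) (f i).1 =
        dl (ZMod q) Y g (rp H c) k := by
    intro g hg k c
    rw [← dl_res H Y hg k c]
    exact Equiv.sum_comp f (fun p => aug (resZ H Y (k, c) p) • g (rp H p.2) p.1)
  refine Nat.card_congr ⟨fun x => ⟨F x.1, ?_⟩, fun g => ⟨fun j => g.1 (rp H (f j).2) (f j).1, ?_⟩,
    ?_, ?_⟩
  · rw [mem_KK]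
    refine ⟨hF x.1, ?_⟩
    funext γ k
    rw [← inv_eq H (dl_mem Y (hF x.1)) γ, ← hsum _ (hF x.1)]
    have h1 := x.2 (e.symm (k, ((γ⁻¹ : G) : G ⧸ H)))
    rw [Equiv.apply_symm_apply] at h1
    exact (Finset.sum_congr rfl fun i _ => by rw [hF2]).trans h1
  · intro b
    obtain ⟨h1, h2⟩ := mem_KK.1 g.2
    have h3 := hsum g.1 h1 (e b).1 (e b).2
    rw [h2] at h3
    exact h3
  · intro x
    apply Subtype.ext
    funext j
    exact hF2 x.1 j
  · intro g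
    apply Subtype.ext
    funext γ i
    show g.1 (rp H (f (f.symm (i, ((γ⁻¹ : G) : G ⧸ H)))).2)
      (f (f.symm (i, ((γ⁻¹ : G) : G ⧸ H)))).1 = g.1 γ i
    rw [Equiv.apply_symm_apply]
    exact congrFun (inv_eq H (mem_KK.1 g.2).1 γ) i

/-- **the bound for subgroups of finite index** -/
theorem vn_fi {p : ℕ} [hp : Fact p.Prime] (hH : H.index ≠ 0) (hG : ResP p H)
    (Y : Matrix (Fin t) (Fin s) (MonoidAlgebra ℤ G)) {a : ℕ} {v : Multiset ℕ}
    (hY : ∀ k, Nat.card (KK H Y (ZMod (p ^ k))) = typ p a v k) :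
    (H.index : ℝ) * vdim (kerA (cf Y)) ≤ a + wt p v := by
  classical
  have hfi : H.FiniteIndex := ⟨hH⟩
  have : Finite (G ⧸ H) := Subgroup.finite_quotient_of_finiteIndex
  have i1 : Fintype (G ⧸ H) := Fintype.ofFinite _
  let e : Fin (Fintype.card (Fin t × (G ⧸ H))) ≃ Fin t × (G ⧸ H) := (Fintype.equivFin _).symm
  let f : Fin (Fintype.card (Fin s × (G ⧸ H))) ≃ Fin s × (G ⧸ H) := (Fintype.equivFin _).symm
  let Y' : Matrix (Fin (Fintype.card (Fin t × (G ⧸ H)))) (Fin (Fintype.card (Fin s × (G ⧸ H))))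
    (MonoidAlgebra ℤ H) := Matrix.of fun b i => resZ H Y (e b) (f i)
  have h1 : cf Y' = ri e f (res H (cf Y)) := by
    funext b i
    ext a
    rfl
  have h2 := vn_main hG Y' (a := a) (v := v) (fun k => by
    rw [← hY k, ← card_KK_res H Y (p ^ k) e f]
    rfl)
  rw [h1, vdim_ri, vdim_res] at h2
  have h3 : (H.index : ℝ) = Fintype.card (G ⧸ H) := by
    rw [Subgroup.index, Nat.card_eq_fintype_card]
  rw [h3]
  exact h2

end fi

end Pool.Agent.Y194.VN
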