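import Pool.Agent.Y194.VN.Typ

/-!
# Reduced `ℓ²`-cohomology
-/

set_option autoImplicit false

open scoped InnerProductSpace ENNReal ComplexOrder
open Filter Topology

namespace Pool.Agent.Y194.VN

open Pool.Agent.H80R2
open Pool.Agent.H80R2.BC (L2 GMat vdim IsTr LInv Equi act kerA)
open Pool.Agent.H812R3
open Pool.Agent.W656.VA
open Pool.Agent.TH107.AT
open Pool.Agent.Y194.TS (typ wt aug Inv mem_Inv KK mem_KK dl dl_apply dl_mem Coh DD lim_DD wsum
  wsum_le)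

section harm

variable {G : Type} [Group G] {r s t : ℕ}

/-- the image of `ℓ²(G) ^ r` under the matrix `A` -/
def imgs (A : Matrix (Fin s) (Fin r) (MonoidAlgebra ℤ G)) : Set (L2 (Fin s × G)) :=
  {z | ∃ y : L2 (Fin r × G), ∀ k g, z (k, g) = act (cf A) y k g}

/-- the elements of `ℓ²(G) ^ s` killed by `B` and orthogonal to the image of `A` -/
noncomputable def harm (A : Matrix (Fin s) (Fin r) (MonoidAlgebra ℤ G))
    (B : Matrix (Fin t) (Fin s) (MonoidAlgebra ℤ G)) : Submodule ℂ (L2 (Fin s × G)) :=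
  kerA (cf B) ⊓ (Submodule.span ℂ (imgs A))ᗮ

lemma cX_mul (B : Matrix (Fin t) (Fin s) (MonoidAlgebra ℤ G))
    (A : Matrix (Fin s) (Fin r) (MonoidAlgebra ℤ G)) : cX (B * A) = cX B * cX A := by
  have h : ∀ {a b : ℕ} (Y : Matrix (Fin a) (Fin b) (MonoidAlgebra ℤ G)),
      cX Y = Y.map (MonoidAlgebra.mapRingHom G (Int.castRingHom ℂ)) := by
    intro a b Y
    ext1 k i
    apply MonoidAlgebra.ext
    ext g
    rw [Matrix.map_apply, MonoidAlgebra.coeff_mapRingHom]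
    rfl
  rw [h, h, h, Matrix.map_mul]

lemma harm_eq (A : Matrix (Fin s) (Fin r) (MonoidAlgebra ℤ G))
    (B : Matrix (Fin t) (Fin s) (MonoidAlgebra ℤ G)) :
    harm A B = kerA (cf B) ⊓ kr (ContinuousLinearMap.adjoint (mop (cX A))) := by
  have hmop : ∀ (y : L2 (Fin r × G)) k g, mop (cX A) y (k, g) = act (cf A) y k g := by
    intro y k g
    exact op_apply _ y k g
  unfold harm
  congr 1
  ext x
  rw [mem_kr, Submodule.mem_orthogonal]
  constructor
  · intro h2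
    refine ext_inner_left ℂ fun y => ?_
    rw [ContinuousLinearMap.adjoint_inner_right, inner_zero_right]
    exact h2 _ (Submodule.subset_span ⟨y, hmop y⟩)
  · intro h2 z hz
    induction hz using Submodule.span_induction with
    | mem z hz =>
      obtain ⟨y, hy⟩ := hz
      have h3 : z = mop (cX A) y := by
        ext ⟨k, g⟩
        rw [hy, hmop]
      rw [h3, ← ContinuousLinearMap.adjoint_inner_right, h2, inner_zero_right]
    | zero => exact inner_zero_left _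
    | add z z' _ _ h3 h4 => rw [inner_add_left, h3, h4, add_zero]
    | smul c z _ h3 => rw [inner_smul_left, h3, mul_zero]

lemma closed_harm (A : Matrix (Fin s) (Fin r) (MonoidAlgebra ℤ G))
    (B : Matrix (Fin t) (Fin s) (MonoidAlgebra ℤ G)) :
    IsClosed (harm A B : Set (L2 (Fin s × G))) := by
  rw [harm_eq]
  exact isClosed_inf (isClosed_kerA _) (isClosed_kr _)

lemma linv_harm (A : Matrix (Fin s) (Fin r) (MonoidAlgebra ℤ G))
    (B : Matrix (Fin t) (Fin s) (MonoidAlgebra ℤ G)) : LInv (harm A B) := by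
  rw [harm_eq]
  exact linv_inf (linv_kerA _) (linv_kr (equi_adj (equi_mop _)))

/-- the dimension of the harmonic space -/
lemma vdim_harm {A : Matrix (Fin s) (Fin r) (MonoidAlgebra ℤ G)}
    {B : Matrix (Fin t) (Fin s) (MonoidAlgebra ℤ G)} (h : B * A = 0) :
    vdim (harm A B) = vdim (kerA (cf B)) + vdim (kerA (cf A)) - r := by
  set T := mop (cX A) with hT
  have htop : IsClosed ((⊤ : Submodule ℂ (L2 (Fin r × G))) : Set (L2 (Fin r × G))) := by
    rw [Submodule.top_coe]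
    exact isClosed_univ
  have hltop : LInv (⊤ : Submodule ℂ (L2 (Fin r × G))) := fun _ _ _ _ _ => Submodule.mem_top
  have h1 := vdim_rank htop hltop T (equi_mop _)
  rw [vdim_top, top_inf_eq, hT, kr_cX, Fintype.card_fin, ← hT] at h1
  set P := ((⊤ : Submodule ℂ (L2 (Fin r × G))).map
    (T : L2 (Fin r × G) →ₗ[ℂ] L2 (Fin s × G))).topologicalClosure with hP
  have h2 : kr (ContinuousLinearMap.adjoint T) = Pᗮ := by
    rw [hP, Submodule.orthogonal_closure]
    ext x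
    rw [mem_kr, Submodule.mem_orthogonal]
    constructor
    · rintro hx _ ⟨y, -, rfl⟩
      show ⟪T y, x⟫_ℂ = 0
      rw [← ContinuousLinearMap.adjoint_inner_right, hx, inner_zero_right]
    · intro hx
      refine ext_inner_left ℂ fun y => ?_
      rw [ContinuousLinearMap.adjoint_inner_right, inner_zero_right]
      exact hx _ ⟨y, Submodule.mem_top, rfl⟩
  have h3 : P ≤ kerA (cf B) := by
    apply Submodule.topologicalClosure_minimal _ _ (isClosed_kerA _)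
    rintro _ ⟨y, -, rfl⟩
    rw [← kr_cX, mem_kr]
    show mop (cX B) (mop (cX A) y) = 0
    rw [← ContinuousLinearMap.comp_apply, ← mop_mul, ← cX_mul, h]
    have h4 : mop (cX (0 : Matrix (Fin t) (Fin r) (MonoidAlgebra ℤ G))) = 0 := by
      have h5 : cX (0 : Matrix (Fin t) (Fin r) (MonoidAlgebra ℤ G)) =
          (0 : ℂ) • cX (0 : Matrix (Fin t) (Fin r) (MonoidAlgebra ℤ G)) := by
        rw [zero_smul]
        ext1 k i
        apply MonoidAlgebra.ext
        ext g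
        exact Int.cast_zero
      rw [h5, mop_smul, zero_smul]
    rw [h4]
    rfl
  rw [harm_eq, ← hT, h2, vdim_diff (Submodule.isClosed_topologicalClosure _) (isClosed_kerA _) h3]
  linarith

end harm

section cx

/-- a cochain complex of finitely generated free modules -/
structure Cx (Γ : Type) [Group Γ] where
  n : ℕ → ℕ
  d : ∀ i, Matrix (Fin (n (i + 1))) (Fin (n i)) (MonoidAlgebra ℤ Γ)
  dd : ∀ i, d (i + 1) * d i = 0

variable {Γ : Type} [Group Γ] (C : Cx Γ)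

/-- the rank in degree `i - 1` -/
def Cx.m : ℕ → ℕ
  | 0 => 0
  | i + 1 => C.n i

/-- the incoming differential in degree `i` -/
noncomputable def Cx.b : ∀ i, Matrix (Fin (C.n i)) (Fin (C.m i)) (MonoidAlgebra ℤ Γ)
  | 0 => 0
  | i + 1 => C.d i

lemma Cx.db (i : ℕ) : C.d i * C.b i = 0 := by
  cases i with
  | zero => exact Matrix.mul_zero _
  | succ i => exact C.dd i

/-- the cohomology of the quotient by the subgroup -/
abbrev Cx.H (N : Subgroup Γ) (i : ℕ) : Type := Coh N (C.b i) (C.d i) ℤ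

/-- the `ℓ²`-Betti numbers -/
noncomputable def Cx.b2 (i : ℕ) : ℝ := vdim (harm (C.b i) (C.d i))

lemma altsum (u : ℕ → ℝ) (i : ℕ) :
    ∑ j ∈ Finset.range (i + 2), (-1 : ℝ) ^ (i + 1 + j) * u j =
      u (i + 1) - ∑ j ∈ Finset.range (i + 1), (-1 : ℝ) ^ (i + j) * u j := by
  rw [Finset.sum_range_succ]
  have h1 : (-1 : ℝ) ^ (i + 1 + (i + 1)) = 1 := by
    rw [← two_mul, pow_mul]
    norm_num
  have h2 : ∀ j ∈ Finset.range (i + 1), (-1 : ℝ) ^ (i + 1 + j) * u j =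
      -((-1 : ℝ) ^ (i + j) * u j) := by
    intro j _
    rw [show i + 1 + j = (i + j) + 1 by ring, pow_succ]
    ring
  rw [Finset.sum_congr rfl h2, Finset.sum_neg_distrib, h1]
  ring

/-- the correction terms -/
def Cx.cor : ℕ → ℝ
  | 0 => 0
  | i + 1 => C.n i - Cx.cor i

lemma Cx.b2_eq (i : ℕ) : C.b2 i = vdim (kerA (cf (C.d i))) + vdim (kerA (cf (C.b i))) - C.m i :=
  vdim_harm (C.db i)

lemma Cx.b2_zero : C.b2 0 = vdim (kerA (cf (C.d 0))) := by
  rw [C.b2_eq]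
  have h1 : vdim (kerA (cf (C.b 0))) = 0 := by
    have h2 := vdim_nonneg (kerA (cf (C.b 0)))
    have h3 := vdim_le_card (kerA (cf (C.b 0)))
    have h4 : Fintype.card (Fin (C.m 0)) = 0 := Fintype.card_fin 0
    rw [h4, Nat.cast_zero] at h3
    exact le_antisymm h3 h2
  rw [h1]
  show _ + 0 - ((0 : ℕ) : ℝ) = _
  rw [Nat.cast_zero]
  ring

lemma Cx.alt_b2 (i : ℕ) : ∑ j ∈ Finset.range (i + 1), (-1 : ℝ) ^ (i + j) * C.b2 j =
    vdim (kerA (cf (C.d i))) - C.cor i := by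
  induction i with
  | zero =>
    rw [Finset.sum_range_one, C.b2_zero]
    show (-1 : ℝ) ^ 0 * _ = _ - 0
    ring
  | succ i ih =>
    rw [altsum, ih, C.b2_eq]
    show vdim (kerA (cf (C.d (i + 1)))) + vdim (kerA (cf (C.d i))) - C.n i -
      (vdim (kerA (cf (C.d i))) - C.cor i) = vdim (kerA (cf (C.d (i + 1)))) - (C.n i - C.cor i)
    ring

variable {N : Subgroup Γ}

lemma Cx.rank_eq (hN : N.index ≠ 0) (i : ℕ) {a : ℕ} {p : ℕ} [Fact p.Prime] {m : ℕ}
    {v : Fin m → ℕ} (hT : TypeOf p (C.H N i) a v) :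
    (a : ℝ) + C.m i * N.index =
      Module.finrank ℤ (KK N (C.d i) ℤ) + Module.finrank ℤ (KK N (C.b i) ℤ) := by
  rw [← finrank_type hT]
  exact_mod_cast finrank_Coh hN (C.db i)

lemma Cx.alt_a (hN : N.index ≠ 0) {a m : ℕ → ℕ} {p : ℕ} [Fact p.Prime]
    {v : ∀ j, Fin (m j) → ℕ} (i : ℕ) (hT : ∀ j ≤ i, TypeOf p (C.H N j) (a j) (v j)) :
    ∑ j ∈ Finset.range (i + 1), (-1 : ℝ) ^ (i + j) * a j =
      Module.finrank ℤ (KK N (C.d i) ℤ) - N.index * C.cor i := by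
  induction i with
  | zero =>
    have h1 := C.rank_eq hN 0 (hT 0 le_rfl)
    have h2 : Module.finrank ℤ (KK N (C.b 0) ℤ) = 0 := by
      have h3 := finrank_BB hN (C.b 0)
      have h4 : C.m 0 * N.index = 0 := Nat.zero_mul _
      exact (Nat.add_eq_zero_iff.1 (h3.trans h4)).2
    rw [Finset.sum_range_one]
    rw [h2] at h1
    have h5 : (C.m 0 : ℝ) = 0 := by
      show ((0 : ℕ) : ℝ) = 0
      exact Nat.cast_zero
    rw [h5] at h1
    show (-1 : ℝ) ^ 0 * (a 0 : ℝ) = _ - N.index * 0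
    push_cast at h1
    linarith
  | succ i ih =>
    rw [altsum (fun j => (a j : ℝ)), ih (fun j hj => hT j (hj.trans (Nat.le_succ i)))]
    have h1 := C.rank_eq hN (i + 1) (hT (i + 1) le_rfl)
    have h2 : (a (i + 1) : ℝ) + C.n i * N.index =
      Module.finrank ℤ (KK N (C.d (i + 1)) ℤ) + Module.finrank ℤ (KK N (C.d i) ℤ) := h1
    show (a (i + 1) : ℝ) - _ = _ - N.index * (C.n i - C.cor i)
    linarith

end cx

section bounds

variable {Γ : Type} [Group Γ] {r s t : ℕ} {p : ℕ} [hp : Fact p.Prime] {N : Subgroup Γ}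

lemma ker_bound (hN : N.index ≠ 0) (hNp : ResP p N) {A : Matrix (Fin s) (Fin r) (MonoidAlgebra ℤ Γ)}
    {B : Matrix (Fin t) (Fin s) (MonoidAlgebra ℤ Γ)} (h : B * A = 0) {a m : ℕ} {v : Fin m → ℕ}
    (hT : TypeOf p (Coh N A B ℤ) a v) :
    (N.index : ℝ) * vdim (kerA (cf A)) ≤ Module.finrank ℤ (KK N A ℤ) + WW p v := by
  have h1 := vn_fi N hN hNp A (fun k => card_KK_typ hN h hT k)
  rwa [wt_map] at h1

lemma ker_mono {N' : Subgroup Γ} (hN : N'.index ≠ 0) (hle : N' ≤ N)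
    (hn : (N'.subgroupOf N).Normal) {l : ℕ} (hidx : N'.relIndex N = p ^ l)
    {A : Matrix (Fin s) (Fin r) (MonoidAlgebra ℤ Γ)}
    {B : Matrix (Fin t) (Fin s) (MonoidAlgebra ℤ Γ)} (h : B * A = 0) {a a' m m' : ℕ}
    {v : Fin m → ℕ} {v' : Fin m' → ℕ} (hT : TypeOf p (Coh N A B ℤ) a v)
    (hT' : TypeOf p (Coh N' A B ℤ) a' v') :
    Module.finrank ℤ (KK N' A ℤ) + WW p v' ≤
      (p : ℝ) ^ l * (Module.finrank ℤ (KK N A ℤ) + WW p v) := by
  have hN0 : N.index ≠ 0 := by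
    intro h0
    apply hN
    rw [← Subgroup.relIndex_mul_index hle, h0, mul_zero]
  have hp2 : (2 : ℝ) ≤ p := by exact_mod_cast hp.out.two_le
  have hlog : 0 < Real.log p := Real.log_pos (by linarith)
  have h1 := fun n => wsum_le (p := p) hN hle hn hidx A n
  have t1 := lim_DD (l := p) hp.out.two_le (fun k => card_KK_typ hN h hT' k)
  have t2 := lim_DD (l := p) hp.out.two_le (fun k => card_KK_typ hN0 h hT k)
  have h2 := le_of_tendsto_of_tendsto' t1 (t2.const_mul ((p : ℝ) ^ l)) h1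
  rw [wt_map, wt_map] at h2
  have hinv : (p : ℝ)⁻¹ < 1 := inv_lt_one_of_one_lt₀ (by linarith)
  have hI : 0 < (1 - (p : ℝ)⁻¹)⁻¹ := inv_pos.2 (by linarith)
  have h3 : (Real.log p * (1 - (p : ℝ)⁻¹)⁻¹) * (Module.finrank ℤ (KK N' A ℤ) + WW p v') ≤
      (Real.log p * (1 - (p : ℝ)⁻¹)⁻¹) *
        ((p : ℝ) ^ l * (Module.finrank ℤ (KK N A ℤ) + WW p v)) := by
    calc _ = Real.log p * ((1 - (p : ℝ)⁻¹)⁻¹ * (Module.finrank ℤ (KK N' A ℤ) + WW p v')) := by ring
      _ ≤ _ := h2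
      _ = _ := by ring
  exact le_of_mul_le_mul_left h3 (mul_pos hlog hI)

lemma ker_int {P : Subgroup Γ} (hP : P.index ≠ 0) (hPg : LocGood P)
    (A : Matrix (Fin s) (Fin r) (MonoidAlgebra ℤ Γ)) :
    ∃ z : ℤ, (P.index : ℝ) * vdim (kerA (cf A)) = z := by
  classical
  have hfi : P.FiniteIndex := ⟨hP⟩
  have : Finite (Γ ⧸ P) := Subgroup.finite_quotient_of_finiteIndex
  have i1 : Fintype (Γ ⧸ P) := Fintype.ofFinite _
  let e : Fin (Fintype.card (Fin s × (Γ ⧸ P))) ≃ Fin s × (Γ ⧸ P) := (Fintype.equivFin _).symm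
  let f : Fin (Fintype.card (Fin r × (Γ ⧸ P))) ≃ Fin r × (Γ ⧸ P) := (Fintype.equivFin _).symm
  let Y' : Matrix (Fin (Fintype.card (Fin s × (Γ ⧸ P)))) (Fin (Fintype.card (Fin r × (Γ ⧸ P))))
    (MonoidAlgebra ℤ P) := Matrix.of fun b i => resZ P A (e b) (f i)
  have h1 : cf Y' = ri e f (res P (cf A)) := by
    funext b i
    ext a
    rfl
  obtain ⟨z, hz⟩ := integral_loc hPg (cX Y') (itg_cX Y')
  refine ⟨z, ?_⟩
  rw [kr_cX, h1, vdim_ri, vdim_res] at hz
  have h3 : (P.index : ℝ) = Fintype.card (Γ ⧸ P) := by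
    rw [Subgroup.index, Nat.card_eq_fintype_card]
  rw [h3]
  exact hz

end bounds

section main

variable {Γ : Type} [Group Γ] (C : Cx Γ) {p : ℕ} [hp : Fact p.Prime]

/-- **the bound for the `ℓ²`-Betti numbers** -/
theorem betti_bound {N : Subgroup Γ} (hN : N.index ≠ 0) (hNp : ResP p N) (i : ℕ)
    {a a₁ m m₁ : ℕ} {v : Fin m → ℕ} {v₁ : Fin m₁ → ℕ} (hT : TypeOf p (C.H N i) a v)
    (hT₁ : TypeOf p (C.H N (i + 1)) a₁ v₁) :
    (N.index : ℝ) * C.b2 i ≤ a + WW p v + WW p v₁ := by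
  have h1 := ker_bound hN hNp (C.db i) hT
  have h2 := ker_bound (A := C.d i) (B := C.d (i + 1)) hN hNp (C.dd i) hT₁
  have h3 := C.rank_eq hN i hT
  rw [C.b2_eq]
  linarith

/-- **the bound for the alternating sums** -/
theorem alt_bound {N : Subgroup Γ} (hN : N.index ≠ 0) (hNp : ResP p N) (i : ℕ)
    {a m : ℕ → ℕ} {v : ∀ j, Fin (m j) → ℕ} (hT : ∀ j ≤ i + 1, TypeOf p (C.H N j) (a j) (v j)) :
    (N.index : ℝ) * ∑ j ∈ Finset.range (i + 1), (-1 : ℝ) ^ (i + j) * C.b2 j ≤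
      ∑ j ∈ Finset.range (i + 1), (-1 : ℝ) ^ (i + j) * a j + WW p (v (i + 1)) := by
  rw [C.alt_b2, C.alt_a hN i (fun j hj => hT j (hj.trans (Nat.le_succ i)))]
  have h2 := ker_bound (A := C.d i) (B := C.d (i + 1)) hN hNp (C.dd i) (hT (i + 1) le_rfl)
  linarith

/-- **monotonicity** -/
theorem betti_mono {N N' : Subgroup Γ} (hN : N'.index ≠ 0) (hle : N' ≤ N)
    (hn : (N'.subgroupOf N).Normal) {l : ℕ} (hidx : N'.relIndex N = p ^ l) (i : ℕ)
    {a a' m m' m₁ m₁' b b' : ℕ} {v : Fin m → ℕ} {v' : Fin m' → ℕ} {v₁ : Fin m₁ → ℕ}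
    {v₁' : Fin m₁' → ℕ} (hT : TypeOf p (C.H N i) a v) (hT' : TypeOf p (C.H N' i) a' v')
    (hT₁ : TypeOf p (C.H N (i + 1)) b v₁) (hT₁' : TypeOf p (C.H N' (i + 1)) b' v₁') :
    a' + WW p v' + WW p v₁' ≤ (p : ℝ) ^ l * (a + WW p v + WW p v₁) := by
  have hN0 : N.index ≠ 0 := by
    intro h0
    apply hN
    rw [← Subgroup.relIndex_mul_index hle, h0, mul_zero]
  have h1 := ker_mono hN hle hn hidx (C.db i) hT hT'
  have h2 := ker_mono (A := C.d i) (B := C.d (i + 1)) hN hle hn hidx (C.dd i) hT₁ hT₁'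
  have h3 := C.rank_eq hN i hT'
  have h4 := C.rank_eq hN0 i hT
  have h5 : (N'.index : ℝ) = (p : ℝ) ^ l * N.index := by
    rw [← Subgroup.relIndex_mul_index hle, hidx]
    push_cast
    ring
  rw [h5] at h3
  have h6 : (p : ℝ) ^ l * (a + C.m i * N.index) = (p : ℝ) ^ l *
    (Module.finrank ℤ (KK N (C.d i) ℤ) + Module.finrank ℤ (KK N (C.b i) ℤ)) := by rw [h4]
  linarith

/-- **integrality** -/
theorem betti_int {P : Subgroup Γ} (hP : P.index ≠ 0) (hPg : LocGood P) (i : ℕ) :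
    ∃ z : ℤ, (P.index : ℝ) * C.b2 i = z := by
  obtain ⟨z1, h1⟩ := ker_int hP hPg (C.d i)
  obtain ⟨z2, h2⟩ := ker_int hP hPg (C.b i)
  refine ⟨z1 + z2 - P.index * C.m i, ?_⟩
  rw [C.b2_eq]
  push_cast
  linarith

/-- **vanishing** -/
theorem betti_zero {P : Subgroup Γ} (hP : P.index ≠ 0) (hPg : LocGood P) (i : ℕ)
    (h : (P.index : ℝ) * C.b2 i < 1) : harm (C.b i) (C.d i) = ⊥ := by
  obtain ⟨z, hz⟩ := betti_int C hP hPg i
  apply eq_bot_of_vdim (closed_harm _ _) (linv_harm _ _)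
  have h1 : (z : ℝ) < 1 := by rw [← hz]; exact h
  have h2 : z ≤ 0 := by
    have : z < 1 := by exact_mod_cast h1
    omega
  have h3 : (0 : ℝ) < P.index := by exact_mod_cast Nat.pos_of_ne_zero hP
  have h4 : (z : ℝ) ≤ 0 := by exact_mod_cast h2
  rw [← hz] at h4
  have h5 : C.b2 i ≤ 0 := by
    by_contra hc
    push Not at hc
    exact absurd h4 (not_le.2 (mul_pos h3 hc))
  exact h5

end main

end Pool.Agent.Y194.VN
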