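import Pool.Agent.Y194.VN.Harm

/-!
# Twisted coefficients
-/

set_option autoImplicit false

open scoped InnerProductSpace ENNReal ComplexOrder
open Filter Topology

namespace Pool.Agent.Y194.VN

open Finset
open Pool.Agent.H80R2
open Pool.Agent.H80R2.BC (L2 GMat vdim IsTr LInv Equi act kerA)
open Pool.Agent.H812R3
open Pool.Agent.TH107.AT (LocGood ResBy RF mop Itg n1 Ex mN tendsto_err mN_tendsto mN_im n1_im_le
  n1_nonneg vdim_rf itg_im)
open Pool.Agent.Y194.TS (aug Inv mem_Inv KK mem_KK dl dl_apply dl_map dl_left tor mem_tor Fn fx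
  mem_fx group_le St ZM card_bot_step ker_le)

section tw

variable {Γ : Type} [Group Γ] {r s t n : ℕ} {R : Type} [CommRing R]

/-- the image of an element of the group ring under a representation -/
noncomputable def rho (ρ : Γ →* Matrix (Fin n) (Fin n) R) (a : MonoidAlgebra ℤ Γ) :
    Matrix (Fin n) (Fin n) R := a.coeff.sum fun g z => z • ρ g

lemma rho_lift (ρ : Γ →* Matrix (Fin n) (Fin n) R) (a : MonoidAlgebra ℤ Γ) :
    rho ρ a = MonoidAlgebra.lift ℤ (Matrix (Fin n) (Fin n) R) Γ ρ a := by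
  rw [MonoidAlgebra.lift_apply]
  rfl

/-- the twisted map of a matrix -/
noncomputable def tw (ρ : Γ →* Matrix (Fin n) (Fin n) R)
    (A : Matrix (Fin t) (Fin s) (MonoidAlgebra ℤ Γ)) :
    (Fin s → Fin n → R) →+ (Fin t → Fin n → R) where
  toFun x := fun a => ∑ b, (rho ρ (A a b)).mulVec (x b)
  map_zero' := by
    funext a
    exact sum_eq_zero fun b _ => Matrix.mulVec_zero _
  map_add' x y := by
    funext a
    show ∑ b, (rho ρ (A a b)).mulVec (x b + y b) =
      ∑ b, (rho ρ (A a b)).mulVec (x b) + ∑ b, (rho ρ (A a b)).mulVec (y b)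
    rw [← sum_add_distrib]
    exact sum_congr rfl fun b _ => Matrix.mulVec_add _ _ _

lemma rho_mulVec (ρ : Γ →* Matrix (Fin n) (Fin n) R) (a : MonoidAlgebra ℤ Γ) (v : Fin n → R) :
    (rho ρ a).mulVec v = a.coeff.sum fun g z => z • (ρ g).mulVec v := by
  have h : (rho ρ a).mulVec v = Matrix.mulVec.addMonoidHomLeft v (rho ρ a) := rfl
  rw [h]
  unfold rho
  rw [Finsupp.sum, Finsupp.sum, map_sum]
  exact sum_congr rfl fun g _ => map_zsmul _ _ _

lemma tw_mul (ρ : Γ →* Matrix (Fin n) (Fin n) R) (B : Matrix (Fin t) (Fin s) (MonoidAlgebra ℤ Γ))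
    (A : Matrix (Fin s) (Fin r) (MonoidAlgebra ℤ Γ)) (x : Fin r → Fin n → R) :
    tw ρ (B * A) x = tw ρ B (tw ρ A x) := by
  funext c
  show ∑ b, (rho ρ ((B * A) c b)).mulVec (x b) =
    ∑ a, (rho ρ (B c a)).mulVec (∑ b, (rho ρ (A a b)).mulVec (x b))
  have h1 : ∀ a, (rho ρ (B c a)).mulVec (∑ b, (rho ρ (A a b)).mulVec (x b)) =
      ∑ b, (rho ρ (B c a) * rho ρ (A a b)).mulVec (x b) := by
    intro a
    rw [show (rho ρ (B c a)).mulVec (∑ b, (rho ρ (A a b)).mulVec (x b)) =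
      (rho ρ (B c a)).mulVecLin (∑ b, (rho ρ (A a b)).mulVec (x b)) from rfl, map_sum]
    refine sum_congr rfl fun b _ => ?_
    show (rho ρ (B c a)).mulVec ((rho ρ (A a b)).mulVec (x b)) = _
    rw [Matrix.mulVec_mulVec]
  rw [sum_congr rfl fun a _ => h1 a, sum_comm]
  refine sum_congr rfl fun b _ => ?_
  have h2 : rho ρ ((B * A) c b) = ∑ a, rho ρ (B c a) * rho ρ (A a b) := by
    simp only [rho_lift]
    rw [Matrix.mul_apply, map_sum]
    exact sum_congr rfl fun a _ => map_mul _ _ _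
  rw [h2]
  have h3 : (∑ a, rho ρ (B c a) * rho ρ (A a b)).mulVec (x b) =
    Matrix.mulVec.addMonoidHomLeft (x b) (∑ a, rho ρ (B c a) * rho ρ (A a b)) := rfl
  rw [h3, map_sum]
  rfl

lemma rho_im {Q : Type} [Group Q] (f : Γ →* Q) (ρ : Q →* Matrix (Fin n) (Fin n) R)
    (Y : Matrix (Fin t) (Fin s) (MonoidAlgebra ℤ Γ)) : tw ρ (imZ f Y) = tw (ρ.comp f) Y := by
  refine AddMonoidHom.ext fun x => ?_
  funext a
  show (∑ b, (rho ρ (imZ f Y a b)).mulVec (x b)) = (∑ b, (rho (ρ.comp f) (Y a b)).mulVec (x b))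
  refine sum_congr rfl fun b _ => ?_
  congr 1
  unfold rho
  show (Finsupp.mapDomain f (Y a b).coeff).sum (fun g z => z • ρ g) = _
  exact Finsupp.sum_mapDomain_index (fun _ => zero_smul _ _) (fun _ _ _ => add_smul _ _ _)

end tw

section iota

variable {p k K : ℕ} [hp : Fact p.Prime]

lemma exists_iota (h : k ≤ K) : ∃ ι : ZMod (p ^ k) →+ ZMod (p ^ K), Function.Injective ι ∧
    ∀ z, p ^ k • z = 0 → ∃ y, ι y = z := by
  have i1 : NeZero (p ^ K) := ⟨pow_ne_zero _ hp.out.ne_zero⟩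
  let T : AddSubgroup (ZMod (p ^ K)) := (nsmulAddMonoidHom (p ^ k)).ker
  have hc : Nat.card T = p ^ k := by
    have h1 := card_tor_zmod (p := p) K k
    rw [min_eq_left h] at h1
    rw [← h1]
    exact Nat.card_congr (Equiv.refl _)
  have hcyc : IsAddCyclic T := inferInstance
  obtain ⟨e⟩ : Nonempty (ZMod (p ^ k) ≃+ T) := by
    rw [← hc]
    exact ⟨zmodAddCyclicAddEquiv hcyc⟩
  refine ⟨T.subtype.comp e.toAddMonoidHom, Subtype.val_injective.comp e.injective, ?_⟩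
  intro z hz
  exact ⟨e.symm ⟨z, hz⟩, congrArg Subtype.val (e.apply_symm_apply ⟨z, hz⟩)⟩

variable {Γ : Type} [Group Γ] {s t n : ℕ}

lemma card_tor_M (h : k ≤ K) (Δ : Subgroup Γ) (Y : Matrix (Fin t) (Fin s) (MonoidAlgebra ℤ Γ)) :
    Nat.card (tor p k (KK Δ Y (Fin n → ZMod (p ^ K)))) = Nat.card (KK Δ Y (ZMod (p ^ k))) ^ n := by
  obtain ⟨ι, hinj, hsurj⟩ := exists_iota (p := p) h
  have hev : ∀ (f : Γ → Fin s → Fin n → ZMod (p ^ K)) (j : Fin n),
      dl (ZMod (p ^ K)) Y (fun γ b => f γ b j) =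
        fun γ a => dl (Fin n → ZMod (p ^ K)) Y f γ a j := fun f j =>
    dl_map (Pi.evalAddMonoidHom (fun _ => ZMod (p ^ K)) j) Y f
  have hio : ∀ (f : Γ → Fin s → ZMod (p ^ k)),
      dl (ZMod (p ^ K)) Y (fun γ b => ι (f γ b)) =
        fun γ a => ι (dl (ZMod (p ^ k)) Y f γ a) := fun f => dl_map ι Y f
  have e : (Fin n → KK Δ Y (ZMod (p ^ k))) ≃ tor p k (KK Δ Y (Fin n → ZMod (p ^ K))) := by
    refine Equiv.ofBijective (fun F => ⟨fun γ b j => ι ((F j).1 γ b), ?_⟩) ⟨?_, ?_⟩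
    · rw [mem_tor, mem_KK]
      refine ⟨⟨fun m hm γ => ?_, ?_⟩, ?_⟩
      · funext b j
        show ι ((F j).1 (m * γ) b) = ι ((F j).1 γ b)
        rw [(mem_KK.1 (F j).2).1 m hm]
      · funext γ a j
        have h1 := congrFun (congrFun (hev (fun γ b j => ι ((F j).1 γ b)) j) γ) a
        rw [← h1]
        show dl (ZMod (p ^ K)) Y (fun γ b => ι ((F j).1 γ b)) γ a = 0
        rw [hio, (mem_KK.1 (F j).2).2]
        exact map_zero ι
      · funext γ b j
        show p ^ k • ι ((F j).1 γ b) = 0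
        rw [← map_nsmul, nsmul_eq_mul, ZMod.natCast_self, zero_mul, map_zero]
    · intro F F' hFF
      funext j
      apply Subtype.ext
      funext γ b
      exact hinj (congrFun (congrFun (congrFun (congrArg Subtype.val hFF) γ) b) j)
    · rintro ⟨f, hf⟩
      obtain ⟨hf1, hf2⟩ := mem_tor.1 hf
      obtain ⟨h1, h2⟩ := mem_KK.1 hf1
      have h3 : ∀ γ b j, ∃ z, ι z = f γ b j := fun γ b j =>
        hsurj _ (congrFun (congrFun (congrFun hf2 γ) b) j)
      choose z hz using h3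
      refine ⟨fun j => ⟨fun γ b => z γ b j, ?_⟩, ?_⟩
      · rw [mem_KK]
        refine ⟨fun m hm γ => ?_, ?_⟩
        · funext b
          apply hinj
          rw [hz, hz, h1 m hm]
        · funext γ a
          apply hinj
          have h4 := congrFun (congrFun (hio (fun γ b => z γ b j)) γ) a
          have h5 : (fun γ b => ι (z γ b j)) = fun γ b => f γ b j := by
            funext γ b
            exact hz γ b j
          rw [h5, hev, h2] at h4
          exact h4.symm.trans (map_zero ι).symm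
      · apply Subtype.ext
        funext γ b j
        exact hz γ b j
  rw [← Nat.card_congr e, Nat.card_pi, prod_const, card_univ, Fintype.card_fin]

end iota

section fin

variable {Q : Type} [Group Q] {s t n p K : ℕ} [hp : Fact p.Prime]

/-- twisted left translations -/
def tl (ρ : Q →* Matrix (Fin n) (Fin n) (ZMod (p ^ K))) (s : ℕ) :
    Q →* AddMonoid.End (Q → Fin s → Fin n → ZMod (p ^ K)) where
  toFun x :=
    { toFun := fun f => fun γ b => (ρ x).mulVec (f (x⁻¹ * γ) b)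
      map_zero' := by
        funext γ b
        exact Matrix.mulVec_zero _
      map_add' := fun f g => by
        funext γ b
        exact Matrix.mulVec_add _ _ _ }
  map_one' := by
    ext f γ b j
    show (ρ 1).mulVec (f (1⁻¹ * γ) b) j = f γ b j
    rw [map_one, Matrix.one_mulVec, inv_one, one_mul]
  map_mul' x y := by
    ext f γ b j
    show (ρ (x * y)).mulVec (f ((x * y)⁻¹ * γ) b) j =
      (ρ x).mulVec ((ρ y).mulVec (f (y⁻¹ * (x⁻¹ * γ)) b)) j
    rw [map_mul, Matrix.mulVec_mulVec, mul_inv_rev, mul_assoc]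

lemma tl_apply (ρ : Q →* Matrix (Fin n) (Fin n) (ZMod (p ^ K))) (x : Q)
    (f : Q → Fin s → Fin n → ZMod (p ^ K)) (γ : Q) (b : Fin s) :
    tl ρ s x f γ b = (ρ x).mulVec (f (x⁻¹ * γ) b) := rfl

/-- multiplication by a matrix -/
def mvh (M : Matrix (Fin n) (Fin n) (ZMod (p ^ K))) :
    (Fin n → ZMod (p ^ K)) →+ (Fin n → ZMod (p ^ K)) where
  toFun := M.mulVec
  map_zero' := Matrix.mulVec_zero _
  map_add' := Matrix.mulVec_add _

lemma tl_stable (ρ : Q →* Matrix (Fin n) (Fin n) (ZMod (p ^ K)))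
    (Y : Matrix (Fin t) (Fin s) (MonoidAlgebra ℤ Q)) (x : Q) :
    St (tl ρ s x) (KK (⊥ : Subgroup Q) Y (Fin n → ZMod (p ^ K))) := by
  intro f hf
  rw [mem_KK] at hf ⊢
  refine ⟨fun m hm γ => ?_, ?_⟩
  · rw [Subgroup.mem_bot.1 hm, one_mul]
  · have h1 := dl_map (mvh (ρ x)) Y (fun γ => f (x⁻¹ * γ))
    have h2 : tl ρ s x f = fun γ b => mvh (ρ x) (f (x⁻¹ * γ) b) := rfl
    rw [h2, h1]
    funext γ a
    have h3 := congrFun (dl_left Y f x⁻¹ γ) a
    rw [h3, hf.2]
    exact map_zero (mvh (ρ x))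

lemma dl_const (ρ : Q →* Matrix (Fin n) (Fin n) (ZMod (p ^ K)))
    (Y : Matrix (Fin t) (Fin s) (MonoidAlgebra ℤ Q)) (x : Fin s → Fin n → ZMod (p ^ K)) (γ : Q)
    (a : Fin t) :
    dl (Fin n → ZMod (p ^ K)) Y (fun γ b => (ρ γ).mulVec (x b)) γ a =
      (ρ γ).mulVec (tw ρ Y x a) := by
  rw [dl_apply]
  have h1 : (ρ γ).mulVec (tw ρ Y x a) = mvh (ρ γ) (∑ b, (rho ρ (Y a b)).mulVec (x b)) := rfl
  rw [h1, map_sum]
  refine sum_congr rfl fun b _ => ?_
  rw [rho_mulVec, Finsupp.sum, Finsupp.sum, map_sum]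
  refine sum_congr rfl fun g _ => ?_
  rw [map_zsmul]
  congr 1
  show (ρ (γ * g)).mulVec (x b) = (ρ γ).mulVec ((ρ g).mulVec (x b))
  rw [map_mul, Matrix.mulVec_mulVec]

lemma card_fix (ρ : Q →* Matrix (Fin n) (Fin n) (ZMod (p ^ K)))
    (Y : Matrix (Fin t) (Fin s) (MonoidAlgebra ℤ Q)) (k : ℕ) :
    Nat.card (tor p k (fx (tl ρ s) (KK (⊥ : Subgroup Q) Y (Fin n → ZMod (p ^ K))))) =
      Nat.card (tor p k (tw ρ Y).ker) := by
  have hval : ∀ f : Q → Fin s → Fin n → ZMod (p ^ K), (∀ g, tl ρ s g f = f) →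
      f = fun γ b => (ρ γ).mulVec (f 1 b) := by
    intro f hf
    funext γ b
    have h1 := congrFun (congrFun (hf γ) γ) b
    rw [tl_apply, inv_mul_cancel] at h1
    exact h1.symm
  refine Nat.card_congr ⟨fun z => ⟨z.1 1, ?_⟩, fun x => ⟨fun γ b => (ρ γ).mulVec (x.1 b), ?_⟩,
    ?_, ?_⟩
  · obtain ⟨hz1, hz2⟩ := mem_tor.1 z.2
    obtain ⟨hz3, hz4⟩ := mem_fx.1 hz1
    rw [mem_tor, AddMonoidHom.mem_ker]
    refine ⟨?_, congrFun hz2 1⟩
    funext a
    have h1 := dl_const ρ Y (z.1 1) 1 a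
    rw [← hval z.1 hz4, (mem_KK.1 hz3).2, map_one, Matrix.one_mulVec] at h1
    exact h1.symm
  · obtain ⟨hx1, hx2⟩ := mem_tor.1 x.2
    rw [AddMonoidHom.mem_ker] at hx1
    rw [mem_tor, mem_fx, mem_KK]
    refine ⟨⟨⟨fun m hm γ => ?_, ?_⟩, fun g => ?_⟩, ?_⟩
    · rw [Subgroup.mem_bot.1 hm, one_mul]
    · funext γ a
      rw [dl_const, hx1]
      exact Matrix.mulVec_zero _
    · funext γ b
      rw [tl_apply, Matrix.mulVec_mulVec, ← map_mul, mul_inv_cancel_left]
    · funext γ b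
      show p ^ k • mvh (ρ γ) (x.1 b) = 0
      rw [← map_nsmul]
      have h2 : p ^ k • x.1 b = 0 := congrFun hx2 b
      rw [h2, map_zero]
  · intro z
    apply Subtype.ext
    exact (hval z.1 (mem_fx.1 (mem_tor.1 z.2).1).2).symm
  · intro x
    apply Subtype.ext
    funext b
    show (ρ 1).mulVec (x.1 b) = x.1 b
    rw [map_one, Matrix.one_mulVec]

/-- the sum of the weights -/
noncomputable def SS (p K : ℕ) : ℝ := ∑ k ∈ range K, ((p : ℝ)⁻¹) ^ k

/-- **finite groups** -/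
lemma fin_tw [Fintype Q] (hQ : IsPGroup p Q) (ρ : Q →* Matrix (Fin n) (Fin n) (ZMod (p ^ K)))
    (Y : Matrix (Fin t) (Fin s) (MonoidAlgebra ℤ Q)) :
    n * Real.log p * SS p K * vdim (kerA (cf Y)) ≤ TS.D p K (tw ρ Y).ker := by
  classical
  obtain ⟨m, hm⟩ := IsPGroup.iff_card.1 hQ
  have i1 : NeZero (p ^ K) := ⟨pow_ne_zero _ hp.out.ne_zero⟩
  have hp2 : (2 : ℝ) ≤ p := by exact_mod_cast hp.out.two_le
  have hlog : 0 < Real.log p := Real.log_pos (by linarith)
  set H := KK (⊥ : Subgroup Q) Y (Fin n → ZMod (p ^ K)) with hH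
  have hF : Fn p H := fun k => inferInstance
  have h1 := group_le (l := p) K m Q hm (tl ρ s) H (fun g => tl_stable ρ Y g) hF
  have h2 : TS.D p K (fx (tl ρ s) H) = TS.D p K (tw ρ Y).ker := by
    unfold TS.D TS.c
    exact sum_congr rfl fun k _ => by rw [card_fix, card_fix]
  rw [h2] at h1
  set d := Module.finrank ℤ (LinearMap.ker (ZM Y).mulVecLin) with hd
  have h3 : n * ((d : ℝ) * Real.log p) * SS p K ≤ TS.D p K H := by
    unfold TS.D TS.c SS
    rw [mul_sum]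
    refine sum_le_sum fun k hk => ?_
    have hk' : k + 1 ≤ K := Nat.succ_le_of_lt (mem_range.1 hk)
    rw [card_tor_M hk', card_tor_M (Nat.le_of_succ_le hk')]
    push_cast
    rw [Real.log_pow, Real.log_pow, ← mul_sub, mul_comm _ (((p : ℝ)⁻¹) ^ k)]
    refine mul_le_mul_of_nonneg_left ?_ (by positivity)
    exact mul_le_mul_of_nonneg_left (card_bot_step Y k) (Nat.cast_nonneg n)
  have h4 : (Nat.card Q : ℝ) * vdim (kerA (cf Y)) ≤ d := by
    rw [vdim_fin]
    have h5 : MM (cf Y) = (ZM Y).map (Int.castRingHom ℂ) := by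
      ext ⟨k, g⟩ ⟨i, h⟩
      rfl
    rw [h5]
    exact_mod_cast ker_le (ZM Y)
  have hS : 0 ≤ SS p K := sum_nonneg fun k _ => by positivity
  have hQ0 : (0 : ℝ) < (p : ℝ) ^ m := by positivity
  rw [hm] at h4
  push_cast at h4
  have h6 : (n * Real.log p * SS p K) * ((p : ℝ) ^ m * vdim (kerA (cf Y))) ≤
      (n * Real.log p * SS p K) * d :=
    mul_le_mul_of_nonneg_left h4 (mul_nonneg (mul_nonneg (Nat.cast_nonneg n) hlog.le) hS)
  have h7 : (p : ℝ) ^ m * (n * Real.log p * SS p K * vdim (kerA (cf Y))) ≤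
      (p : ℝ) ^ m * TS.D p K (tw ρ Y).ker := by
    calc _ = (n * Real.log p * SS p K) * ((p : ℝ) ^ m * vdim (kerA (cf Y))) := by ring
      _ ≤ (n * Real.log p * SS p K) * d := h6
      _ = n * ((d : ℝ) * Real.log p) * SS p K := by ring
      _ ≤ _ := h3
      _ ≤ _ := h1
  exact le_of_mul_le_mul_left h7 hQ0

end fin

end Pool.Agent.Y194.VN
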