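import Pool.Agent.Y194.VN.Tw

/-!
# Twisted coefficients: the bounds
-/

set_option autoImplicit false

open scoped InnerProductSpace ENNReal ComplexOrder
open Filter Topology

namespace Pool.Agent.Y194.VN

open Finset
open Pool.Agent.H80R2
open Pool.Agent.H80R2.BC (L2 GMat vdim IsTr LInv Equi act kerA)
open Pool.Agent.H812R3
open Pool.Agent.TH107.AT (LocGood ResBy RF mop Itg n1 Ex mN tendsto_err mN_tendsto mN_im n1_im_le
  n1_nonneg vdim_rf itg_im)
open Pool.Agent.Y194.TS (tor mem_tor)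

section approx

variable {G : Type} [Group G] {s t n p K : ℕ} [hp : Fact p.Prime]

/-- approximation by finite quotients -/
lemma approx (Y : Matrix (Fin t) (Fin s) (MonoidAlgebra ℤ G)) {ε : ℝ} (hε : 0 < ε) :
    ∃ S : Finset G, (∀ x ∈ S, x ≠ 1) ∧ ∀ (Q : Type) [Group Q] (_ : Finite Q) (f : G →* Q),
      (∀ x ∈ S, f x ≠ 1) → vdim (kerA (cf Y)) < vdim (kerA (cf (imZ f Y))) + ε := by
  classical
  set X := cX Y with hXdef
  have hX : Itg X := itg_cX Y
  set c : ℝ := 1 / (n1 X ^ 2 + 1) with hcdef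
  have hpos : 0 < n1 X ^ 2 + 1 := by positivity
  have hc : 0 < c := by positivity
  have hc1 : c ≤ 1 := by
    rw [hcdef, div_le_one hpos]
    have := sq_nonneg (n1 X)
    linarith
  have hc2 : c * n1 X ^ 2 ≤ 1 := by
    rw [hcdef, one_div, inv_mul_le_iff₀ hpos]
    linarith
  obtain ⟨L, hL0, hL⟩ : ∃ L : ℕ, 0 < L ∧ (Fintype.card (Fin s) : ℝ) * (1 / L) < ε / 4 := by
    obtain ⟨L, hL⟩ := exists_nat_gt ((Fintype.card (Fin s) : ℝ) / (ε / 4))
    have hL' : (0 : ℝ) < L := lt_of_le_of_lt (by positivity) hL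
    refine ⟨L, by exact_mod_cast hL', ?_⟩
    rw [mul_one_div, div_lt_iff₀ hL']
    rw [div_lt_iff₀ (by positivity)] at hL
    linarith
  have h1 := (tendsto_err c hc L (Fintype.card (Fin s))).eventually (gt_mem_nhds hL)
  have h2 := (mN_tendsto X c hc hc2).eventually
    (Metric.ball_mem_nhds _ (show 0 < ε / 4 by positivity))
  obtain ⟨N, hN1, hN2, hN0⟩ := (h1.and (h2.and (eventually_gt_atTop 0))).exists
  refine ⟨Ex X c N, fun s hs => (Finset.mem_filter.1 hs).2, fun Q _ hQ f hf => ?_⟩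
  have h3 := mN_im f X c N hf
  have h4 : c * n1 (Pool.Agent.TH107.AT.im f X) ^ 2 ≤ 1 := by
    refine le_trans ?_ hc2
    apply mul_le_mul_of_nonneg_left _ hc.le
    exact pow_le_pow_left₀ (n1_nonneg _) (n1_im_le f X) 2
  have hRF : RF Q := fun S hS => ⟨Q, inferInstance, MonoidHom.id Q, hQ, fun s hs => hS s hs⟩
  have h5 := vdim_rf hRF (Pool.Agent.TH107.AT.im f X) (itg_im f X hX) c hc hc1 h4 N L hN0 hL0
  rw [h3] at h5
  rw [dist_eq_norm] at hN2
  have h6 : ‖((vdim (Pool.Agent.W656.VA.kr (mop X)) -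
      vdim (Pool.Agent.W656.VA.kr (mop (Pool.Agent.TH107.AT.im f X))) : ℝ) : ℂ)‖ < ε := by
    have e : ((vdim (Pool.Agent.W656.VA.kr (mop X)) -
        vdim (Pool.Agent.W656.VA.kr (mop (Pool.Agent.TH107.AT.im f X))) : ℝ) : ℂ) =
        (mN X c N - (vdim (Pool.Agent.W656.VA.kr (mop (Pool.Agent.TH107.AT.im f X))) : ℂ)) -
          (mN X c N - (vdim (Pool.Agent.W656.VA.kr (mop X)) : ℂ)) := by
      push_cast; ring
    rw [e]
    refine lt_of_le_of_lt (norm_sub_le _ _) ?_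
    linarith
  rw [Complex.norm_real, Real.norm_eq_abs] at h6
  have h7 := (abs_lt.1 h6).2
  rw [hXdef, im_cX, kr_cX, kr_cX] at h7
  linarith

/-- the image of the representation is a `p`-group -/
def PImage (p : ℕ) {n : ℕ} {R : Type} [CommRing R] (ρ : G →* Matrix (Fin n) (Fin n) R) : Prop :=
  ∀ g, ∃ m, ρ g ^ (p ^ m) = 1

/-- **the bound for one matrix** -/
theorem main_tw (hG : ResP p G) (ρ : G →* Matrix (Fin n) (Fin n) (ZMod (p ^ K)))
    (hρ : PImage p ρ) (Y : Matrix (Fin t) (Fin s) (MonoidAlgebra ℤ G)) :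
    n * Real.log p * SS p K * vdim (kerA (cf Y)) ≤ TS.D p K (tw ρ Y).ker := by
  classical
  have i1 : NeZero (p ^ K) := ⟨pow_ne_zero _ hp.out.ne_zero⟩
  have hp2 : (2 : ℝ) ≤ p := by exact_mod_cast hp.out.two_le
  have hlog : 0 < Real.log p := Real.log_pos (by linarith)
  have hS : 0 ≤ SS p K := sum_nonneg fun k _ => by positivity
  refine le_of_forall_pos_le_add fun ε hε => ?_
  set u := n * Real.log p * SS p K with hu
  have hu0 : 0 ≤ u := mul_nonneg (mul_nonneg (Nat.cast_nonneg n) hlog.le) hS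
  obtain ⟨S, hS1, hS2⟩ := approx Y (show 0 < ε / (u + 1) by positivity)
  obtain ⟨Q0, _, f0, ⟨hQ0, hQp⟩, hf0⟩ := hG S hS1
  let L : (G ⧸ ρ.ker) →* Matrix (Fin n) (Fin n) (ZMod (p ^ K)) :=
    QuotientGroup.lift ρ.ker ρ (fun x hx => hx)
  have hL : ∀ g : G, L (g : G ⧸ ρ.ker) = ρ g := fun g => rfl
  have hLi : Function.Injective L := by
    intro a b hab
    obtain ⟨a, rfl⟩ := QuotientGroup.mk_surjective a
    obtain ⟨b, rfl⟩ := QuotientGroup.mk_surjective b
    rw [hL, hL] at hab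
    rw [QuotientGroup.eq, MonoidHom.mem_ker, map_mul, ← hab, ← map_mul, inv_mul_cancel, map_one]
  have hfin : Finite (G ⧸ ρ.ker) := Finite.of_injective L hLi
  let f : G →* Q0 × (G ⧸ ρ.ker) := f0.prod (QuotientGroup.mk' ρ.ker)
  let ρ' : Q0 × (G ⧸ ρ.ker) →* Matrix (Fin n) (Fin n) (ZMod (p ^ K)) :=
    L.comp (MonoidHom.snd Q0 (G ⧸ ρ.ker))
  have hρ' : ρ'.comp f = ρ := MonoidHom.ext fun g => rfl
  have hfS : ∀ x ∈ S, f x ≠ 1 := fun x hx h => hf0 x hx (congrArg Prod.fst h)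
  have iQ : Fintype (Q0 × (G ⧸ ρ.ker)) := Fintype.ofFinite _
  have hpg : IsPGroup p (Q0 × (G ⧸ ρ.ker)) := by
    rintro ⟨x, y⟩
    obtain ⟨a, ha⟩ := hQp x
    obtain ⟨y, rfl⟩ := QuotientGroup.mk_surjective y
    obtain ⟨b, hb⟩ := hρ y
    refine ⟨a + b, Prod.ext ?_ ?_⟩
    · show x ^ p ^ (a + b) = 1
      rw [pow_add, pow_mul, ha, one_pow]
    · show (y : G ⧸ ρ.ker) ^ p ^ (a + b) = 1
      apply hLi
      rw [map_pow, hL, map_one, pow_add, mul_comm, pow_mul, hb, one_pow]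
  have h1 := hS2 _ inferInstance f hfS
  have h2 := fin_tw hpg ρ' (imZ f Y)
  rw [rho_im, hρ'] at h2
  have h3 : u * vdim (kerA (cf Y)) ≤ u * (vdim (kerA (cf (imZ f Y))) + ε / (u + 1)) :=
    mul_le_mul_of_nonneg_left h1.le hu0
  have h4 : u * (ε / (u + 1)) ≤ ε := by
    rw [mul_div_assoc', div_le_iff₀ (by positivity)]
    linarith
  rw [mul_add] at h3
  linarith

end approx

section coh

variable {G : Type} [Group G] {r s t n p K : ℕ} [hp : Fact p.Prime]

/-- the cocycles with values in the elements killed by `p ^ k` -/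
noncomputable def Zt (p k : ℕ) {R : Type} [CommRing R] (ρ : G →* Matrix (Fin n) (Fin n) R)
    (B : Matrix (Fin t) (Fin s) (MonoidAlgebra ℤ G)) : AddSubgroup (Fin s → Fin n → R) :=
  tor p k (tw ρ B).ker

/-- the coboundaries with values in the elements killed by `p ^ k` -/
noncomputable def Bt (p k : ℕ) {R : Type} [CommRing R] (ρ : G →* Matrix (Fin n) (Fin n) R)
    (A : Matrix (Fin s) (Fin r) (MonoidAlgebra ℤ G)) : AddSubgroup (Fin s → Fin n → R) :=
  (tor p k (⊤ : AddSubgroup (Fin r → Fin n → R))).map (tw ρ A)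

/-- the cohomology with coefficients in the elements killed by `p ^ k` -/
abbrev Ht (p k : ℕ) {R : Type} [CommRing R] (ρ : G →* Matrix (Fin n) (Fin n) R)
    (A : Matrix (Fin s) (Fin r) (MonoidAlgebra ℤ G))
    (B : Matrix (Fin t) (Fin s) (MonoidAlgebra ℤ G)) : Type :=
  Zt p k ρ B ⧸ (Bt p k ρ A).addSubgroupOf (Zt p k ρ B)

lemma Bt_le {ρ : G →* Matrix (Fin n) (Fin n) (ZMod (p ^ K))}
    {A : Matrix (Fin s) (Fin r) (MonoidAlgebra ℤ G)}
    {B : Matrix (Fin t) (Fin s) (MonoidAlgebra ℤ G)} (h : B * A = 0) (k : ℕ) :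
    Bt p k ρ A ≤ Zt p k ρ B := by
  rintro _ ⟨x, hx, rfl⟩
  have hx' := (mem_tor.1 hx).2
  unfold Zt
  rw [mem_tor, AddMonoidHom.mem_ker, ← tw_mul, h, ← map_nsmul, hx', map_zero]
  refine ⟨?_, rfl⟩
  funext a
  show ∑ b, (rho ρ ((0 : Matrix (Fin t) (Fin r) (MonoidAlgebra ℤ G)) a b)).mulVec (x b) = 0
  refine sum_eq_zero fun b _ => ?_
  have h1 : rho ρ ((0 : Matrix (Fin t) (Fin r) (MonoidAlgebra ℤ G)) a b) = 0 := by
    rw [Matrix.zero_apply, rho_lift, map_zero]
  rw [h1, Matrix.zero_mulVec]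

lemma card_top_tor {k : ℕ} (hk : k ≤ K) :
    Nat.card (tor p k (⊤ : AddSubgroup (Fin r → Fin n → ZMod (p ^ K)))) = ((p ^ k) ^ n) ^ r := by
  have e : tor p k (⊤ : AddSubgroup (Fin r → Fin n → ZMod (p ^ K))) ≃
      (Fin r → Fin n → {x : ZMod (p ^ K) // p ^ k • x = 0}) :=
    { toFun := fun x a j => ⟨x.1 a j, congrFun (congrFun (mem_tor.1 x.2).2 a) j⟩
      invFun := fun y => ⟨fun a j => (y a j).1, mem_tor.2 ⟨trivial, by
        funext a j
        exact (y a j).2⟩⟩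
      left_inv := fun _ => rfl
      right_inv := fun _ => rfl }
  have h1 := card_tor_zmod (p := p) K k
  rw [min_eq_left hk] at h1
  rw [Nat.card_congr e, Nat.card_pi]
  simp only [Nat.card_pi, h1, prod_const, card_univ, Fintype.card_fin]

lemma log_Ht {ρ : G →* Matrix (Fin n) (Fin n) (ZMod (p ^ K))}
    {A : Matrix (Fin s) (Fin r) (MonoidAlgebra ℤ G)}
    {B : Matrix (Fin t) (Fin s) (MonoidAlgebra ℤ G)} (h : B * A = 0) {k : ℕ} (hk : k ≤ K) :
    Real.log (Nat.card (Ht p k ρ A B)) =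
      TS.c p (tw ρ B).ker k + TS.c p (tw ρ A).ker k - k * (n * r * Real.log p) := by
  have i1 : NeZero (p ^ K) := ⟨pow_ne_zero _ hp.out.ne_zero⟩
  have h1 : Nat.card (Ht p k ρ A B) * Nat.card (Bt p k ρ A) = Nat.card (Zt p k ρ B) := by
    have h2 := AddSubgroup.card_eq_card_quotient_mul_card_addSubgroup
      ((Bt p k ρ A).addSubgroupOf (Zt p k ρ B))
    have h3 : Nat.card ((Bt p k ρ A).addSubgroupOf (Zt p k ρ B)) = Nat.card (Bt p k ρ A) :=
      Nat.card_congr (AddSubgroup.addSubgroupOfEquivOfLe (Bt_le h k)).toEquiv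
    rw [h3] at h2
    exact h2.symm
  have h4 : Nat.card (Bt p k ρ A) * Nat.card (tor p k (tw ρ A).ker) = ((p ^ k) ^ n) ^ r := by
    rw [← card_top_tor (r := r) (n := n) (p := p) hk]
    let φ : tor p k (⊤ : AddSubgroup (Fin r → Fin n → ZMod (p ^ K))) →+ (Fin s → Fin n →
      ZMod (p ^ K)) := (tw ρ A).comp (tor p k ⊤).subtype
    have h5 := AddSubgroup.card_eq_card_quotient_mul_card_addSubgroup φ.ker
    rw [Nat.card_congr (QuotientAddGroup.quotientKerEquivRange φ).toEquiv] at h5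
    have h6 : Nat.card φ.range = Nat.card (Bt p k ρ A) := by
      have h7 : φ.range = Bt p k ρ A := by
        ext y
        rw [AddMonoidHom.mem_range]
        constructor
        · rintro ⟨x, rfl⟩
          exact ⟨x.1, x.2, rfl⟩
        · rintro ⟨x, hx, rfl⟩
          exact ⟨⟨x, hx⟩, rfl⟩
      rw [h7]
    have h8 : Nat.card φ.ker = Nat.card (tor p k (tw ρ A).ker) := by
      refine Nat.card_congr ⟨fun x => ⟨x.1.1, ?_⟩, fun x => ⟨⟨x.1, ?_⟩, ?_⟩, fun x => rfl,
        fun x => rfl⟩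
      · exact mem_tor.2 ⟨x.2, (mem_tor.1 x.1.2).2⟩
      · exact mem_tor.2 ⟨trivial, (mem_tor.1 x.2).2⟩
      · exact (mem_tor.1 x.2).1
    rw [h6, h8] at h5
    exact h5.symm
  have p1 : (0 : ℝ) < Nat.card (Bt p k ρ A) := by exact_mod_cast Nat.card_pos
  have p2 : (0 : ℝ) < Nat.card (tor p k (tw ρ A).ker) := by exact_mod_cast Nat.card_pos
  have p3 : (0 : ℝ) < Nat.card (Zt p k ρ B) := by exact_mod_cast Nat.card_pos
  have p4 : (0 : ℝ) < Nat.card (Ht p k ρ A B) := by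
    have : Finite (Ht p k ρ A B) := inferInstance
    exact_mod_cast Nat.card_pos
  have l1 : Real.log (Nat.card (Ht p k ρ A B)) + Real.log (Nat.card (Bt p k ρ A)) =
      TS.c p (tw ρ B).ker k := by
    rw [← Real.log_mul p4.ne' p1.ne']
    unfold TS.c
    congr 1
    exact_mod_cast h1
  have l2 : Real.log (Nat.card (Bt p k ρ A)) + TS.c p (tw ρ A).ker k =
      k * (n * r * Real.log p) := by
    unfold TS.c
    rw [← Real.log_mul p1.ne' p2.ne']
    have h9 : (Nat.card (Bt p k ρ A) : ℝ) * Nat.card (tor p k (tw ρ A).ker) =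
        (((p : ℝ) ^ k) ^ n) ^ r := by exact_mod_cast h4
    rw [h9, Real.log_pow, Real.log_pow, Real.log_pow]
    ring
  linarith

/-- **the twisted bound for `ℓ²`-Betti numbers** -/
theorem betti_tw (hG : ResP p G) (C : Cx G) (i : ℕ)
    (ρ : G →* Matrix (Fin n) (Fin n) (ZMod (p ^ K))) (hρ : PImage p ρ) :
    n * SS p K * C.b2 i ≤ ∑ k ∈ range K, ((p : ℝ)⁻¹) ^ k *
      (Real.logb p (Nat.card (Ht p (k + 1) ρ (C.b i) (C.d i))) -
        Real.logb p (Nat.card (Ht p k ρ (C.b i) (C.d i)))) := by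
  have hp2 : (2 : ℝ) ≤ p := by exact_mod_cast hp.out.two_le
  have hlog : 0 < Real.log p := Real.log_pos (by linarith)
  have h1 := main_tw hG ρ hρ (C.d i)
  have h2 := main_tw hG ρ hρ (C.b i)
  have h3 : ∑ k ∈ range K, ((p : ℝ)⁻¹) ^ k *
      (Real.logb p (Nat.card (Ht p (k + 1) ρ (C.b i) (C.d i))) -
        Real.logb p (Nat.card (Ht p k ρ (C.b i) (C.d i)))) * Real.log p =
      TS.D p K (tw ρ (C.d i)).ker + TS.D p K (tw ρ (C.b i)).ker -
        n * Real.log p * SS p K * C.m i := by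
    unfold TS.D SS
    rw [mul_sum, sum_mul, ← sum_add_distrib, ← sum_sub_distrib]
    refine sum_congr rfl fun k hk => ?_
    have hk' : k + 1 ≤ K := Nat.succ_le_of_lt (mem_range.1 hk)
    have e1 : ∀ x : ℝ, Real.logb p x * Real.log p = Real.log x := fun x => by
      unfold Real.logb
      rw [div_mul_cancel₀ _ hlog.ne']
    rw [mul_assoc, sub_mul, e1, e1, log_Ht (C.db i) hk', log_Ht (C.db i) (Nat.le_of_succ_le hk')]
    push_cast
    ring
  rw [← sum_mul] at h3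
  have h4 : (n * SS p K * C.b2 i) * Real.log p ≤ (∑ k ∈ range K, ((p : ℝ)⁻¹) ^ k *
      (Real.logb p (Nat.card (Ht p (k + 1) ρ (C.b i) (C.d i))) -
        Real.logb p (Nat.card (Ht p k ρ (C.b i) (C.d i))))) * Real.log p := by
    rw [h3, C.b2_eq]
    have e2 : (n * SS p K * (vdim (kerA (cf (C.d i))) + vdim (kerA (cf (C.b i))) - C.m i)) *
        Real.log p = n * Real.log p * SS p K * vdim (kerA (cf (C.d i))) +
          n * Real.log p * SS p K * vdim (kerA (cf (C.b i))) -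
            n * Real.log p * SS p K * C.m i := by ring
    rw [e2]
    linarith
  exact le_of_mul_le_mul_right h4 hlog

end coh

end Pool.Agent.Y194.VN
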