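import Pool.Agent.Y194.VN.Tw2

/-!
# `p`-adic representations
-/

set_option autoImplicit false

open scoped InnerProductSpace ENNReal ComplexOrder
open Filter Topology

namespace Pool.Agent.Y194.VN

open Finset
open Pool.Agent.H80R2.BC (L2 vdim kerA)
open Pool.Agent.Y194.TS (tor mem_tor typ wt DD lim_DD)

section red

variable {G : Type} [Group G] {r s t n p : ℕ} [hp : Fact p.Prime]

/-- the reduction modulo `p ^ k` of a `p`-adic representation -/
noncomputable def red (k : ℕ) (ρ : G →* Matrix (Fin n) (Fin n) ℤ_[p]) :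
    G →* Matrix (Fin n) (Fin n) (ZMod (p ^ k)) :=
  (((PadicInt.toZModPow (p := p) k).mapMatrix : Matrix (Fin n) (Fin n) ℤ_[p] →+*
    Matrix (Fin n) (Fin n) (ZMod (p ^ k))) : Matrix (Fin n) (Fin n) ℤ_[p] →*
    Matrix (Fin n) (Fin n) (ZMod (p ^ k))).comp ρ

lemma rho_red (k : ℕ) (ρ : G →* Matrix (Fin n) (Fin n) ℤ_[p]) (a : MonoidAlgebra ℤ G) :
    rho (red k ρ) a = (PadicInt.toZModPow (p := p) k).mapMatrix (rho ρ a) := by
  unfold rho
  rw [Finsupp.sum, Finsupp.sum, map_sum]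
  refine sum_congr rfl fun g _ => ?_
  rw [map_zsmul]
  rfl

lemma iota_lin {k K : ℕ} (h : k ≤ K) (ι : ZMod (p ^ k) →+ ZMod (p ^ K)) (x : ℤ_[p])
    (v : ZMod (p ^ k)) :
    ι (PadicInt.toZModPow k x * v) = PadicInt.toZModPow K x * ι v := by
  have i1 : NeZero (p ^ K) := ⟨pow_ne_zero _ hp.out.ne_zero⟩
  set y := PadicInt.toZModPow (p := p) K x with hy
  have h1 : ((y.val : ℕ) : ZMod (p ^ K)) = y := ZMod.natCast_zmod_val y
  have h2 : PadicInt.toZModPow (p := p) k x = ((y.val : ℕ) : ZMod (p ^ k)) := by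
    rw [← PadicInt.cast_toZModPow k K h x, ← hy]
    exact (ZMod.natCast_val y).symm
  rw [h2, ← h1, ← nsmul_eq_mul, ← nsmul_eq_mul, map_nsmul, h1]

lemma tw_iota {k K : ℕ} (h : k ≤ K) (ι : ZMod (p ^ k) →+ ZMod (p ^ K))
    (ρ : G →* Matrix (Fin n) (Fin n) ℤ_[p]) (Y : Matrix (Fin t) (Fin s) (MonoidAlgebra ℤ G))
    (x : Fin s → Fin n → ZMod (p ^ k)) :
    tw (red K ρ) Y (fun b j => ι (x b j)) = fun a j => ι (tw (red k ρ) Y x a j) := by
  funext a j
  show (∑ b, (rho (red K ρ) (Y a b)).mulVec (fun j => ι (x b j))) j =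
    ι ((∑ b, (rho (red k ρ) (Y a b)).mulVec (x b)) j)
  rw [Finset.sum_apply, Finset.sum_apply, map_sum]
  refine sum_congr rfl fun b _ => ?_
  rw [rho_red, rho_red]
  unfold Matrix.mulVec dotProduct
  rw [map_sum]
  exact sum_congr rfl fun l _ => (iota_lin h ι _ _).symm

lemma card_tw_red {k K : ℕ} (h : k ≤ K) (ρ : G →* Matrix (Fin n) (Fin n) ℤ_[p])
    (Y : Matrix (Fin t) (Fin s) (MonoidAlgebra ℤ G)) :
    Nat.card (tor p k (tw (red K ρ) Y).ker) = Nat.card (tor p k (tw (red k ρ) Y).ker) := by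
  obtain ⟨ι, hinj, hsurj⟩ := exists_iota (p := p) h
  symm
  refine Nat.card_congr (Equiv.ofBijective (fun x => ⟨fun b j => ι (x.1 b j), ?_⟩) ⟨?_, ?_⟩)
  · obtain ⟨h1, h2⟩ := mem_tor.1 x.2
    rw [AddMonoidHom.mem_ker] at h1
    rw [mem_tor, AddMonoidHom.mem_ker, tw_iota h, h1]
    refine ⟨?_, ?_⟩
    · funext a j
      exact map_zero ι
    · funext b j
      show p ^ k • ι (x.1 b j) = 0
      rw [← map_nsmul, nsmul_eq_mul, ZMod.natCast_self, zero_mul, map_zero]
  · intro x y hxy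
    apply Subtype.ext
    funext b j
    exact hinj (congrFun (congrFun (congrArg Subtype.val hxy) b) j)
  · rintro ⟨x, hx⟩
    obtain ⟨h1, h2⟩ := mem_tor.1 hx
    rw [AddMonoidHom.mem_ker] at h1
    have h3 : ∀ b j, ∃ z, ι z = x b j := fun b j => hsurj _ (congrFun (congrFun h2 b) j)
    choose z hz using h3
    have h4 : (fun b j => ι (z b j)) = x := by
      funext b j
      exact hz b j
    refine ⟨⟨z, ?_⟩, Subtype.ext h4⟩
    rw [mem_tor, AddMonoidHom.mem_ker]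
    refine ⟨?_, ?_⟩
    · have h5 := tw_iota h ι ρ Y z
      rw [h4, h1] at h5
      funext a j
      apply hinj
      exact (congrFun (congrFun h5 a) j).symm.trans (map_zero ι).symm
    · funext b j
      show p ^ k • z b j = 0
      rw [nsmul_eq_mul, ZMod.natCast_self, zero_mul]

lemma log_Ht_red {k K : ℕ} (h : k ≤ K) (ρ : G →* Matrix (Fin n) (Fin n) ℤ_[p])
    {A : Matrix (Fin s) (Fin r) (MonoidAlgebra ℤ G)}
    {B : Matrix (Fin t) (Fin s) (MonoidAlgebra ℤ G)} (hBA : B * A = 0) :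
    Real.log (Nat.card (Ht p k (red K ρ) A B)) = Real.log (Nat.card (Ht p k (red k ρ) A B)) := by
  rw [log_Ht hBA h, log_Ht hBA le_rfl]
  unfold TS.c
  rw [card_tw_red h, card_tw_red h]

/-- **the bound for `p`-adic representations** -/
theorem betti_padic (hG : ResP p G) (C : Cx G) (i : ℕ) (ρ : G →* Matrix (Fin n) (Fin n) ℤ_[p])
    (hρ : ∀ k, PImage p (red k ρ)) {a m : ℕ} {v : Fin m → ℕ}
    (hH : ∀ k, Nat.card (Ht p k (red k ρ) (C.b i) (C.d i)) = p ^ (a * k + ∑ j, min k (v j))) :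
    n * C.b2 i ≤ a + WW p v := by
  have hp2 : (2 : ℝ) ≤ p := by exact_mod_cast hp.out.two_le
  have hlog : 0 < Real.log p := Real.log_pos (by linarith)
  have hinv : (p : ℝ)⁻¹ < 1 := inv_lt_one_of_one_lt₀ (by linarith)
  have hI : 0 < (1 - (p : ℝ)⁻¹)⁻¹ := inv_pos.2 (by linarith)
  have hN : ∀ k, Nat.card (Ht p k (red k ρ) (C.b i) (C.d i)) = typ p a (univ.val.map v) k := by
    intro k
    rw [hH]
    unfold typ
    rw [Multiset.map_map]
    rfl
  have h1 : ∀ K, n * SS p K * C.b2 i * Real.log p ≤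
      DD p (fun k => Nat.card (Ht p k (red k ρ) (C.b i) (C.d i))) K := by
    intro K
    have h2 := betti_tw hG C i (red K ρ) (hρ K)
    have h3 := mul_le_mul_of_nonneg_right h2 hlog.le
    refine h3.trans (le_of_eq ?_)
    unfold DD
    rw [sum_mul]
    refine sum_congr rfl fun k hk => ?_
    have hk' : k + 1 ≤ K := Nat.succ_le_of_lt (mem_range.1 hk)
    have e1 : ∀ x : ℝ, Real.logb p x * Real.log p = Real.log x := fun x => by
      unfold Real.logb
      rw [div_mul_cancel₀ _ hlog.ne']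
    rw [mul_assoc, sub_mul, e1, e1, log_Ht_red hk' ρ (C.db i),
      log_Ht_red (Nat.le_of_succ_le hk') ρ (C.db i)]
  have t1 : Tendsto (fun K => n * SS p K * C.b2 i * Real.log p) atTop
      (𝓝 (n * (1 - (p : ℝ)⁻¹)⁻¹ * C.b2 i * Real.log p)) := by
    have h2 := (hasSum_geometric_of_lt_one (by positivity) hinv).tendsto_sum_nat
    exact ((h2.const_mul (n : ℝ)).mul_const (C.b2 i)).mul_const (Real.log p)
  have t2 := lim_DD (l := p) hp.out.two_le hN
  have h4 := le_of_tendsto_of_tendsto' t1 t2 h1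
  rw [wt_map] at h4
  have h5 : (Real.log p * (1 - (p : ℝ)⁻¹)⁻¹) * (n * C.b2 i) ≤
      (Real.log p * (1 - (p : ℝ)⁻¹)⁻¹) * (a + WW p v) := by
    calc _ = n * (1 - (p : ℝ)⁻¹)⁻¹ * C.b2 i * Real.log p := by ring
      _ ≤ _ := h4
      _ = _ := by ring
  exact le_of_mul_le_mul_left h5 (mul_pos hlog hI)

end red

end Pool.Agent.Y194.VN
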