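import Pool.Agent.Y194.TS.Coh
import Pool.Agent.Y194.VN.Fi

/-!
# Types of integral cohomology groups
-/

set_option autoImplicit false

namespace Pool.Agent.Y194.VN

open Finset Filter Topology Module
open Pool.Agent.Y194.TS
open Pool.Agent.TH107.AT (rp)

section type

/-- the weight of the torsion -/
noncomputable def WW (p : ℕ) {m : ℕ} (v : Fin m → ℕ) : ℝ := ∑ j, (1 - ((p : ℝ)⁻¹) ^ v j)

lemma wt_map {p m : ℕ} (v : Fin m → ℕ) : wt p (univ.val.map v) = WW p v := by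
  unfold wt WW
  rw [Multiset.map_map]
  rfl

/-- the group is the direct sum of `ℤ ^ a`, the groups `ℤ/p^{v j}` and a finite group of order
prime to `p` -/
def TypeOf (p : ℕ) (H : Type) [AddCommGroup H] (a : ℕ) {m : ℕ} (v : Fin m → ℕ) : Prop :=
  ∃ (T : Type) (_ : AddCommGroup T), (Nat.card T).Coprime p ∧
    Nonempty (H ≃+ (Fin a → ℤ) × (∀ j, ZMod (p ^ v j)) × T)

lemma card_tor_zmod {p : ℕ} [hp : Fact p.Prime] (v k : ℕ) :
    Nat.card {x : ZMod (p ^ v) // p ^ k • x = 0} = p ^ min k v := by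
  have hn : p ^ v ≠ 0 := pow_ne_zero _ hp.out.ne_zero
  have : NeZero (p ^ v) := ⟨hn⟩
  let φ : ZMod (p ^ v) →+ ZMod (p ^ v) := nsmulAddMonoidHom (p ^ k)
  have h1 : Nat.card {x : ZMod (p ^ v) // p ^ k • x = 0} = Nat.card φ.ker :=
    Nat.card_congr (Equiv.refl _)
  have h2 : Nat.card φ.range = p ^ v / (p ^ v).gcd (p ^ k) := by
    have h3 : φ.range = AddSubgroup.zmultiples ((p ^ k : ℕ) : ZMod (p ^ v)) := by
      ext x
      rw [AddMonoidHom.mem_range, AddSubgroup.mem_zmultiples_iff]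
      constructor
      · rintro ⟨y, rfl⟩
        refine ⟨(y.val : ℤ), ?_⟩
        show ((y.val : ℕ) : ℤ) • ((p ^ k : ℕ) : ZMod (p ^ v)) = (p ^ k) • y
        rw [natCast_zsmul, nsmul_eq_mul, nsmul_eq_mul, ZMod.natCast_zmod_val, mul_comm]
      · rintro ⟨z, rfl⟩
        refine ⟨(z : ZMod (p ^ v)), ?_⟩
        show (p ^ k) • (z : ZMod (p ^ v)) = z • ((p ^ k : ℕ) : ZMod (p ^ v))
        rw [zsmul_eq_mul, nsmul_eq_mul, mul_comm]
    rw [h3, Nat.card_zmultiples, ZMod.addOrderOf_coe _ hn]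
  have h4 : p ^ v = Nat.card φ.range * Nat.card φ.ker := by
    have h5 := AddSubgroup.card_eq_card_quotient_mul_card_addSubgroup φ.ker
    rw [Nat.card_congr (QuotientAddGroup.quotientKerEquivRange φ).toEquiv, Nat.card_zmod] at h5
    exact h5
  rw [h1]
  rw [h2] at h4
  rcases le_total k v with h | h
  · rw [Nat.gcd_eq_right (pow_dvd_pow p h), Nat.pow_div h hp.out.pos] at h4
    rw [min_eq_left h]
    have h6 : p ^ v = p ^ (v - k) * p ^ k := by rw [← pow_add, Nat.sub_add_cancel h]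
    exact (Nat.eq_of_mul_eq_mul_left (pow_pos hp.out.pos _) (h6.symm.trans h4)).symm
  · rw [Nat.gcd_eq_left (pow_dvd_pow p h), Nat.div_self (Nat.pos_of_ne_zero hn), one_mul] at h4
    rw [min_eq_right h, ← h4]

lemma card_tor_type {p : ℕ} [hp : Fact p.Prime] {H : Type} [AddCommGroup H] {a m : ℕ}
    {v : Fin m → ℕ} (h : TypeOf p H a v) (k : ℕ) :
    Nat.card {x : H // p ^ k • x = 0} = p ^ ∑ j, min k (v j) := by
  obtain ⟨T, _, hT, ⟨e⟩⟩ := h
  have hTf : ∀ t : T, p ^ k • t = 0 → t = 0 := by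
    intro t ht
    have h1 : addOrderOf t ∣ p ^ k := addOrderOf_dvd_of_nsmul_eq_zero ht
    have h2 : addOrderOf t ∣ Nat.card T := addOrderOf_dvd_natCard t
    have h3 : addOrderOf t ∣ 1 := by
      have h4 := Nat.Coprime.pow_right k hT
      rw [← h4.gcd_eq_one]
      exact Nat.dvd_gcd h2 h1
    exact AddMonoid.addOrderOf_eq_one_iff.1 (Nat.dvd_one.1 h3)
  have hZf : ∀ z : Fin a → ℤ, p ^ k • z = 0 → z = 0 := by
    intro z hz
    funext i
    have h1 : p ^ k • z i = 0 := congrFun hz i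
    rw [nsmul_eq_mul] at h1
    exact (mul_eq_zero.1 h1).resolve_left (by exact_mod_cast pow_ne_zero _ hp.out.ne_zero)
  have hx : ∀ x : H, p ^ k • x = 0 → p ^ k • (e x) = 0 := by
    intro x hx
    rw [← map_nsmul, hx, map_zero]
  let E : {x : H // p ^ k • x = 0} ≃ (∀ j, {y : ZMod (p ^ v j) // p ^ k • y = 0}) :=
    { toFun := fun x j => ⟨(e x.1).2.1 j, congrFun (congrArg (fun z => z.2.1) (hx x.1 x.2)) j⟩
      invFun := fun y => ⟨e.symm (0, fun j => (y j).1, 0), by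
        rw [← map_nsmul, ← map_zero e.symm]
        congr 1
        refine Prod.ext (smul_zero (p ^ k)) (Prod.ext ?_ ?_)
        · funext j
          exact (y j).2
        · exact smul_zero (A := T) (p ^ k)⟩
      left_inv := by
        intro x
        apply Subtype.ext
        show e.symm (0, fun j => (e x.1).2.1 j, 0) = x.1
        rw [AddEquiv.symm_apply_eq]
        have h1 := hx x.1 x.2
        refine Prod.ext ?_ (Prod.ext rfl ?_)
        · exact (hZf _ (congrArg Prod.fst h1)).symm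
        · exact (hTf _ (congrArg (fun z => z.2.2) h1)).symm
      right_inv := by
        intro y
        funext j
        apply Subtype.ext
        show (e (e.symm (0, fun j => (y j).1, 0))).2.1 j = (y j).1
        rw [AddEquiv.apply_symm_apply] }
  rw [Nat.card_congr E, Nat.card_pi, prod_congr rfl fun j _ => card_tor_zmod (v j) k,
    prod_pow_eq_pow_sum]

lemma rn {M M' : Type} [AddCommGroup M] [AddCommGroup M'] [Module.Finite ℤ M] (φ : M →ₗ[ℤ] M') :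
    finrank ℤ (LinearMap.range φ) + finrank ℤ (LinearMap.ker φ) = finrank ℤ M := by
  rw [← φ.quotKerEquivRange.finrank_eq]
  exact Submodule.finrank_quotient_add_finrank _

lemma finrank_finite {M : Type} [AddCommGroup M] [Finite M] : finrank ℤ M = 0 := by
  have : Module.Finite ℤ M := Module.Finite.of_finite
  rw [Module.finrank_eq_zero_iff_isTorsion]
  intro x
  refine ⟨⟨(Nat.card M : ℤ), mem_nonZeroDivisors_of_ne_zero (by exact_mod_cast Nat.card_pos.ne')⟩,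
    ?_⟩
  show ((Nat.card M : ℕ) : ℤ) • x = 0
  rw [natCast_zsmul]
  exact card_nsmul_eq_zero'

lemma finrank_type {p : ℕ} [hp : Fact p.Prime] {H : Type} [AddCommGroup H] {a m : ℕ}
    {v : Fin m → ℕ} (h : TypeOf p H a v) : finrank ℤ H = a := by
  obtain ⟨T, _, hT, ⟨e⟩⟩ := h
  have hT0 : Nat.card T ≠ 0 := by
    intro h0
    rw [h0, Nat.coprime_zero_left] at hT
    exact hp.out.one_lt.ne' hT
  have iT : Finite T := Nat.finite_of_card_ne_zero hT0
  have iZ : ∀ j, NeZero (p ^ v j) := fun j => ⟨pow_ne_zero _ hp.out.ne_zero⟩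
  have iZ' : ∀ j, Finite (ZMod (p ^ v j)) := fun j => inferInstance
  have iX : Finite ((∀ j, ZMod (p ^ v j)) × T) := inferInstance
  have i1 : Module.Finite ℤ ((∀ j, ZMod (p ^ v j)) × T) := Module.Finite.of_finite
  rw [e.toIntLinearEquiv.finrank_eq]
  have h1 := rn (LinearMap.fst ℤ (Fin a → ℤ) ((∀ j, ZMod (p ^ v j)) × T))
  have h2 : LinearMap.range (LinearMap.fst ℤ (Fin a → ℤ) ((∀ j, ZMod (p ^ v j)) × T)) = ⊤ :=
    LinearMap.range_eq_top.2 LinearMap.fst_surjective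
  have i2 : Finite (LinearMap.ker (LinearMap.fst ℤ (Fin a → ℤ) ((∀ j, ZMod (p ^ v j)) × T))) := by
    refine Finite.of_injective (fun x => x.1.2) ?_
    intro x y hxy
    apply Subtype.ext
    exact Prod.ext (x.2.trans y.2.symm) hxy
  have h3 : finrank ℤ (LinearMap.ker (LinearMap.fst ℤ (Fin a → ℤ)
    ((∀ j, ZMod (p ^ v j)) × T))) = 0 := finrank_finite
  rw [h2, finrank_top, h3, add_zero, Module.finrank_fintype_fun_eq_card,
    Fintype.card_fin] at h1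
  exact h1.symm

end type

section inv

variable {Γ : Type} [Group Γ] {r s t : ℕ} {Δ : Subgroup Γ}

/-- the invariant functions -/
noncomputable def eInv (Δ : Subgroup Γ) (s : ℕ) : Inv Δ s ℤ ≃+ (Fin s × (Γ ⧸ Δ) → ℤ) where
  toFun f := fun p => f.1 (rp Δ p.2) p.1
  invFun x := ⟨fun γ i => x (i, ((γ⁻¹ : Γ) : Γ ⧸ Δ)), fun n hn γ => by
    funext i
    show x (i, (((n * γ)⁻¹ : Γ) : Γ ⧸ Δ)) = x (i, ((γ⁻¹ : Γ) : Γ ⧸ Δ))
    rw [mul_inv_rev, QuotientGroup.mk_mul_of_mem _ (Δ.inv_mem hn)]⟩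
  left_inv f := by
    apply Subtype.ext
    funext γ i
    exact congrFun (inv_eq Δ f.2 γ) i
  right_inv x := by
    funext ⟨i, q⟩
    show x (i, (((rp Δ q)⁻¹ : Γ) : Γ ⧸ Δ)) = x (i, q)
    rw [mk_rp]
  map_add' _ _ := rfl

lemma fin_free (hΔ : Δ.index ≠ 0) {L : AddSubgroup (Γ → Fin s → ℤ)} (hL : L ≤ Inv Δ s ℤ) :
    Module.Free ℤ L ∧ Module.Finite ℤ L := by
  have hfi : Δ.FiniteIndex := ⟨hΔ⟩
  have : Finite (Γ ⧸ Δ) := Subgroup.finite_quotient_of_finiteIndex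
  let ψ : L →ₗ[ℤ] (Fin s × (Γ ⧸ Δ) → ℤ) :=
    ((eInv Δ s).toAddMonoidHom.comp (AddSubgroup.inclusion hL)).toIntLinearMap
  have hψ : Function.Injective ψ := (eInv Δ s).injective.comp (AddSubgroup.inclusion_injective hL)
  let e := LinearEquiv.ofInjective ψ hψ
  exact ⟨Module.Free.of_equiv e.symm, Module.Finite.equiv e.symm⟩

lemma finrank_Inv (hΔ : Δ.index ≠ 0) : finrank ℤ (Inv Δ s ℤ) = s * Δ.index := by
  have hfi : Δ.FiniteIndex := ⟨hΔ⟩
  have : Finite (Γ ⧸ Δ) := Subgroup.finite_quotient_of_finiteIndex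
  have i1 : Fintype (Γ ⧸ Δ) := Fintype.ofFinite _
  rw [(eInv Δ s).toIntLinearEquiv.finrank_eq, Module.finrank_fintype_fun_eq_card,
    Fintype.card_prod, Fintype.card_fin, Subgroup.index, Nat.card_eq_fintype_card]

lemma KK_le (A : Matrix (Fin t) (Fin s) (MonoidAlgebra ℤ Γ)) : KK Δ A ℤ ≤ Inv Δ s ℤ := inf_le_left

lemma BB_le_Inv (A : Matrix (Fin t) (Fin s) (MonoidAlgebra ℤ Γ)) : BB Δ A ℤ ≤ Inv Δ t ℤ := by
  intro f hf
  obtain ⟨g, hg, rfl⟩ := mem_BB.1 hf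
  exact dl_mem A hg

lemma finrank_BB (hΔ : Δ.index ≠ 0) (A : Matrix (Fin t) (Fin s) (MonoidAlgebra ℤ Γ)) :
    finrank ℤ (BB Δ A ℤ) + finrank ℤ (KK Δ A ℤ) = s * Δ.index := by
  obtain ⟨i1, i2⟩ := fin_free hΔ (le_refl (Inv Δ s ℤ))
  let φ : Inv Δ s ℤ →ₗ[ℤ] (Γ → Fin t → ℤ) :=
    ((dl ℤ A).comp (Inv Δ s ℤ).subtype).toIntLinearMap
  have h1 := rn φ
  have e1 : LinearMap.range φ ≃+ BB Δ A ℤ :=
    { toFun := fun y => ⟨y.1, by
        obtain ⟨x, hx⟩ := y.2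
        exact mem_BB.2 ⟨x.1, x.2, hx⟩⟩
      invFun := fun y => ⟨y.1, by
        obtain ⟨x, hx, hy⟩ := mem_BB.1 y.2
        exact ⟨⟨x, hx⟩, hy⟩⟩
      left_inv := fun _ => rfl
      right_inv := fun _ => rfl
      map_add' := fun _ _ => rfl }
  have e2 : LinearMap.ker φ ≃+ KK Δ A ℤ :=
    { toFun := fun y => ⟨y.1.1, mem_KK.2 ⟨y.1.2, y.2⟩⟩
      invFun := fun y => ⟨⟨y.1, (mem_KK.1 y.2).1⟩, (mem_KK.1 y.2).2⟩
      left_inv := fun _ => rfl
      right_inv := fun _ => rfl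
      map_add' := fun _ _ => rfl }
  rw [e1.toIntLinearEquiv.finrank_eq, e2.toIntLinearEquiv.finrank_eq, finrank_Inv hΔ] at h1
  exact h1

lemma finrank_Coh (hΔ : Δ.index ≠ 0) {A : Matrix (Fin s) (Fin r) (MonoidAlgebra ℤ Γ)}
    {B : Matrix (Fin t) (Fin s) (MonoidAlgebra ℤ Γ)} (h : B * A = 0) :
    finrank ℤ (Coh Δ A B ℤ) + r * Δ.index = finrank ℤ (KK Δ B ℤ) + finrank ℤ (KK Δ A ℤ) := by
  obtain ⟨i1, i2⟩ := fin_free hΔ (KK_le (Δ := Δ) B)
  let φ : KK Δ B ℤ →ₗ[ℤ] Coh Δ A B ℤ :=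
    (QuotientAddGroup.mk' ((BB Δ A ℤ).addSubgroupOf (KK Δ B ℤ))).toIntLinearMap
  have h1 := rn φ
  have h2 : LinearMap.range φ = ⊤ := LinearMap.range_eq_top.2 (QuotientAddGroup.mk'_surjective _)
  have hφ : ∀ x : KK Δ B ℤ, φ x = 0 ↔ (x : Γ → Fin s → ℤ) ∈ BB Δ A ℤ := by
    intro x
    have h4 := QuotientAddGroup.eq_zero_iff (N := (BB Δ A ℤ).addSubgroupOf (KK Δ B ℤ)) x
    exact h4.trans AddSubgroup.mem_addSubgroupOf
  have e1 : LinearMap.ker φ ≃+ BB Δ A ℤ :=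
    { toFun := fun y => ⟨y.1.1, (hφ y.1).1 y.2⟩
      invFun := fun y => ⟨⟨y.1, BB_le h ℤ y.2⟩, (hφ _).2 y.2⟩
      left_inv := fun _ => rfl
      right_inv := fun _ => rfl
      map_add' := fun _ _ => rfl }
  rw [h2, finrank_top, e1.toIntLinearEquiv.finrank_eq] at h1
  have h3 := finrank_BB hΔ A
  omega

/-- the counting function of the kernels -/
lemma card_KK_typ {p : ℕ} [hp : Fact p.Prime] (hΔ : Δ.index ≠ 0)
    {A : Matrix (Fin s) (Fin r) (MonoidAlgebra ℤ Γ)}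
    {B : Matrix (Fin t) (Fin s) (MonoidAlgebra ℤ Γ)} (h : B * A = 0) {a m : ℕ} {v : Fin m → ℕ}
    (hT : TypeOf p (Coh Δ A B ℤ) a v) (k : ℕ) :
    Nat.card (KK Δ A (ZMod (p ^ k))) = typ p (finrank ℤ (KK Δ A ℤ)) (univ.val.map v) k := by
  have hpk : p ^ k ≠ 0 := pow_ne_zero _ hp.out.ne_zero
  obtain ⟨i1, i2⟩ := fin_free hΔ (KK_le (Δ := Δ) A)
  rw [card_KK_zmod A hpk, relIndex_pow hp.out.ne_zero, rel_pow, ← card_tors h hpk,
    card_tor_type hT k]
  unfold typ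
  rw [Multiset.map_map, pow_add, pow_mul]
  rfl

end inv

end Pool.Agent.Y194.VN
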